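import Pool.Agent.Helper52.KP.StG

/-!
# Project KP (MP_26be5b_ag), chapter G, algebraic part 1: Jacobson-Morozov and `sl2`-modules

For every statement `StXX` prove `theorem hXX : StXX` in `Pool/Agent/<You>/KPG/M_XX.lean`; statements
named in the docstring may be taken as hypotheses.
-/

set_option autoImplicit false

namespace Pool.Agent.Helper67.KPG

open Pool.Agent.Helper67.NO Pool.Agent.Helper52.KP

universe u

/-- MODULE JAC (Jacobson's lemma, trace form).
PROOF.  Let `C = A B - B A`, which commutes with `A`.  (1) `C` is nilpotent: for `k ≥ 0`,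
`tr (C^(k+1)) = tr (A B C^k) - tr (B A C^k) = tr (A B C^k) - tr (B C^k A) = 0`; if `C` were not
nilpotent it would have an eigenvalue `≠ 0`; all power sums of the eigenvalues vanish, contradiction in
characteristic `0`.  (Another way: let `P` be the projection to the generalized eigenspace of `C` for an
eigenvalue `μ ≠ 0` along the other ones; `P` is a polynomial in `C`, so it commutes with `A`, and
`tr (C P) = tr (A B P) - tr (B A P) = tr (A (B P)) - tr ((B P) A) = 0`, but `tr (C P) = μ dim > 0` times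
a nonzero number.)
(2) By induction `A^k B = B A^k + k C A^(k-1)` (`k ≥ 1`).  Let `v ∈ ker A^k`, `k ≥ 1`.  Then
`A^k B v = k C A^(k-1) v` and so `A^(k-1) (A B) v = k C A^(k-1) v`.  Applying `A` once more:
`A^k (A B) v = k C A^k v = 0`, so `A B` maps `ker A^k` to itself, and by induction
`A^(k-1) (A B)^j v = k^j C^j A^(k-1) v`.  With `C^j = 0`: `(A B)^j v ∈ ker A^(k-1)`.  So
`(A B)^j` maps `ker A^k` to `ker A^(k-1)`, hence `(A B)^(j k) v = 0` for `v ∈ ker A^k`, and for `A^k = 0`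
we get `(A B)^(j k) = 0`.  A nilpotent operator has trace `0`
(`LinearMap.isNilpotent_trace_of_isNilpotent`). -/
def StJAC : Prop := ∀ (V : Type u) [AddCommGroup V] [Module ℂ V] [FiniteDimensional ℂ V]
  (A B : V →ₗ[ℂ] V), IsNilpotent A →
  A ∘ₗ (A ∘ₗ B - B ∘ₗ A) = (A ∘ₗ B - B ∘ₗ A) ∘ₗ A → LinearMap.trace ℂ V (A ∘ₗ B) = 0

/-- MODULE JMA.  Input: `StJAC`.
PROOF.  The Killing form `κ` is nondegenerate (`LieAlgebra.IsKilling` for semisimple `g`, as in project
NO), and `κ [e, x] y = - κ x [e, y]`, so `T = (ad e)^2` is symmetric for `κ`.  If `κ v (T x) = 0` for all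
`x` then `κ (T v) x = 0` for all `x`, so `T v = 0`: the orthogonal space of `range T` is `ker T`, so
`range T` is the orthogonal space of `ker T` (double orthogonal in finite dimension, `κ` nondegenerate).
If `T z = 0` then `ad e` commutes with `[ad e, ad z] = ad [e, z]`, because
`[ad e, ad [e, z]] = ad [e, [e, z]] = 0`; so `κ e z = tr (ad e ∘ ad z) = 0` by `StJAC`.  Hence `e` is in
`range T`: `e = [e, [e, F']]`, take `F = - 2 F'`. -/
def StJMA : Prop := ∀ (g : Type u) [LieRing g] [LieAlgebra ℂ g] [FiniteDimensional ℂ g]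
  [LieAlgebra.IsSemisimple ℂ g] (e : g), IsNilpotent (LieAlgebra.ad ℂ g e) →
  ∃ F : g, ⁅e, ⁅e, F⁆⁆ = -((2 : ℂ) • e)

/-- MODULE KER.
PROOF.  By induction `A^(i+1) B - B A^(i+1) = (i + 1) A^i (H + i)` (use `H A = A (H + 2)`), and
`A^i H = (H - 2 i) A^i`.  Let `K_i = ker A ∩ range A^i`.  Let `z = A^i y ∈ K_i`, so `A^(i+1) y = 0` and
`A^(i+1) B y = (i + 1) A^i (H + i) y = (i + 1) (H - 2 i + i) A^i y = (i + 1) (H - i) z`.  So
`(H - i) z ∈ range A^(i+1)`, and `A (H - i) z = (H - 2 - i) A z = 0`: `H - i` maps `K_i` to `K_(i+1)`.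
As `K_0 = ker A` and `K_n = 0` (`A^n = 0`), the product of the commuting operators `H - i`, `i < n`, kills
`ker A`. -/
def StKER : Prop := ∀ (V : Type u) [AddCommGroup V] [Module ℂ V]
  (A B H : Module.End ℂ V) (n : ℕ), H * A - A * H = (2 : ℂ) • A → A * B - B * A = H → A ^ n = 0 →
  ∀ v, A v = 0 →
    (Polynomial.aeval H (∏ i ∈ Finset.range n, (Polynomial.X - Polynomial.C (i : ℂ)))) v = 0

/-- MODULE MOR (Morozov's lemma).  Input: `StKER`.
PROOF.  `h = [e, F]`; `[h, e] = - [e, [e, F]] = 2 e`.  Let `A = ad e`, `B = ad F`, `H = ad h`: the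
hypotheses of `StKER` hold (`ad` is a homomorphism).  `[h, F] + 2 F` is in `ker A`:
`[e, [h, F]] = [[e, h], F] + [h, [e, F]] = - 2 [e, F] + 0` and `[e, 2 F] = 2 h`, sum `0`.  `H` maps
`ker A` to itself.  `H + 2` is injective on `ker A`: if `A z = 0`, `H z = - 2 z` then the operator of
`StKER` multiplies `z` by `∏ (- 2 - i) ≠ 0`, so `z = 0`.  Finite dimension: `H + 2` maps `ker A` onto
`ker A`, so there is `z ∈ ker A` with `[h, z] + 2 z = [h, F] + 2 F`.  Put `f = F - z`: `[e, f] = [e, F] = h`,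
`[h, f] = - 2 f`.  `h ≠ 0` because `[h, e] = 2 e ≠ 0`. -/
def StMOR : Prop := ∀ (g : Type u) [LieRing g] [LieAlgebra ℂ g] [FiniteDimensional ℂ g]
  (e F : g), e ≠ 0 → IsNilpotent (LieAlgebra.ad ℂ g e) → ⁅e, ⁅e, F⁆⁆ = -((2 : ℂ) • e) →
  ∃ f : g, IsSl2Triple ⁅e, F⁆ e f

/-- the Casimir operator -/
def cas {V : Type u} [AddCommGroup V] [Module ℂ V] (A B H : Module.End ℂ V) : Module.End ℂ V :=
  H * H + (2 : ℂ) • H + (4 : ℂ) • (B * A)

/-- MODULE CAS (a generalized eigenspace of the Casimir operator).  Input: `StKER`.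
PROOF.  (0) `A` and `B` are nilpotent (`A` maps the generalized eigenspace of `H` for `μ` to that for
`μ + 2`, and there are finitely many eigenvalues; the same for `B`).
(1) `C = cas A B H` commutes with `A`, `B` and `H`: first `C H = H C` since `B A` commutes with `H`; then
`C A = A C`: `H H A = A (H + 2)^2`, `H A = A (H + 2)`, `B A A = (A B - H) A = A B A - A (H + 2)`, sum:
`A (H^2 + 4 H + 4 + 2 H + 4 + 4 B A - 4 H - 8) = A (H^2 + 2 H + 4 B A)`; the same for `B`
(`H B = B (H - 2)`, `B A B = B (B A + H)`).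
(2) Let `v ≠ 0` be in the generalized eigenspace `V_μ` of `C`, `A v = 0`.  By `StKER` `v = ∑ v_i` with
`H v_i = i v_i`, `i ∈ ℕ`, and each `v_i` is a polynomial in `H` applied to `v` (the polynomial
`∏ (X - i)` has distinct roots), so `v_i ∈ V_μ`, `A v_i = 0`, `C v_i = (i^2 + 2 i) v_i`; so if
`v_i ≠ 0` then `i^2 + 2 i = μ`, which determines the natural number `i`.  So `H v = i v`.
(3) For `B`: apply the same to the operators `B`, `A`, `-H` (`(-H) B - B (-H) = 2 B`,
`B A - A B = - H`), whose Casimir operator is `H^2 - 2 H + 4 A B = H^2 - 2 H + 4 B A + 4 H = C`: if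
`B v = 0`, `v ≠ 0` in `V_μ` then `- H v = i' v` with `i'^2 + 2 i' = μ`, the same number `i`. -/
def StCAS : Prop := ∀ (V : Type u) [AddCommGroup V] [Module ℂ V] [FiniteDimensional ℂ V]
  (A B H : Module.End ℂ V), H * A - A * H = (2 : ℂ) • A → H * B - B * H = -((2 : ℂ) • B) →
  A * B - B * A = H →
  Commute (cas A B H) A ∧ Commute (cas A B H) B ∧ Commute (cas A B H) H ∧
  IsNilpotent A ∧ IsNilpotent B ∧
  ∀ μ : ℂ, ∃ i : ℕ, ∀ v ∈ (cas A B H).maxGenEigenspace μ,
    (A v = 0 → H v = (i : ℂ) • v) ∧ (B v = 0 → H v = -((i : ℂ) • v))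

/-- MODULE SLT (`sl2`-modules).  Input: `StCAS`.
PROOF.  `V` is the sum of the generalized eigenspaces `V_μ` of `C = cas A B H`
(`Module.End.iSup_maxGenEigenspace_eq_top`), each stable under `A`, `B`, `H`.  Fix `μ` and let `i` be as
in `StCAS`.  (1) If `v ∈ V_μ`, `A^(k+1) v = 0` then `w = (H - (i - 2k)) v` is in `V_μ` and `A^k w = 0`:
`A^k H = (H - 2 k) A^k` so `A^k w = (H - i) A^k v`, and `A^k v ∈ V_μ ∩ ker A`.  So if `A^n = 0` the
product `∏_{k < n} (H - (i - 2 k))` kills `V_μ`; its roots are distinct integers, so `V_μ` is contained in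
the sum of the eigenspaces of `H` with integer eigenvalues (Lagrange interpolation, or the lemmas on
coprime polynomials).  This is the first claim.
(2) Let `H v = - j v`, `v ≠ 0`, `j ∈ ℕ`; we show `A^j v ≠ 0`.  The components of `v` in the `V_μ` have the
same property (`H` commutes with `C`; they are polynomials in `C` applied to `v`), and `A^j` preserves the
`V_μ`, so we may assume `v ∈ V_μ`.  Let `k` be maximal with `A^k v ≠ 0`: `A^k v ∈ ker A ∩ V_μ`,
`H A^k v = (- j + 2 k) A^k v`, so `- j + 2 k = i`.  Let `l` be maximal with `B^l v ≠ 0`: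
`H B^l v = (- j - 2 l) B^l v`, so `- j - 2 l = - i`.  So `i ≥ j` and `k = (i + j) / 2 ≥ j`: `A^j v ≠ 0`.
(3) symmetric (`A ↔ B`, `H ↔ - H`). -/
def StSLT : Prop := ∀ (V : Type u) [AddCommGroup V] [Module ℂ V] [FiniteDimensional ℂ V]
  (A B H : Module.End ℂ V), H * A - A * H = (2 : ℂ) • A → H * B - B * H = -((2 : ℂ) • B) →
  A * B - B * A = H →
  (⨆ j : ℤ, H.eigenspace (j : ℂ)) = ⊤ ∧
  (∀ (j : ℕ) v, H v = -((j : ℂ) • v) → (A ^ j) v = 0 → v = 0) ∧
  (∀ (j : ℕ) v, H v = (j : ℂ) • v → (B ^ j) v = 0 → v = 0)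

end Pool.Agent.Helper67.KPG
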