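import Pool.Agent.Helper67.KPG.DefsC
import Pool.Agent.Helper67.KPG.St1

/-!
# Project KP (MP_26be5b_ag), chapter G, algebraic part 2: the rational inverse of the chart

For every statement `StXX` prove `theorem hXX : StXX` in `Pool/Agent/<You>/KPG/M_XX.lean`; statements
named in the docstring may be taken as hypotheses (`theorem hXX : StA → StB → StXX`).
Throughout `g_j` is the eigenspace of `ad h` for `j`, `ge pr j = g_(≥ j)`, `le pr j = g_(≤ j)`.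
-/

set_option autoImplicit false

namespace Pool.Agent.Helper67.KPG

open Pool.Agent.Helper67.NO Pool.Agent.Helper52.KP

universe u

/-- MODULE GRD (existence of the grading).  Inputs: `StJM` (of helper52's StG), `StSLT`.
PROOF.  `StJM` gives the triple; apply `StSLT` to `V = g`, `A = ad e`, `B = ad f`, `H = ad h`.  The
eigenspaces of `H` for different eigenvalues are independent (`Module.End.eigenspaces_iSupIndep`), so `g` is
the internal direct sum of the `g_j`, `j ∈ ℤ`; only finitely many are nonzero, let `N` bound their indices, and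
let `pr j` be the projections (for instance: `pr j` = value at `H` of the Lagrange interpolation polynomial
which is `1` at `j` and `0` at the other integers in `[-N, N]`, and `0` for `|j| > N`).  `inj` is `StSLT` (2).
`sur`: `(ad e)^j : g_(-j) → g_j` and `(ad f)^j : g_j → g_(-j)` are injective (`StSLT`; they map these spaces to
each other since `H A^j = A^j (H + 2 j)`), so the dimensions are equal and the first is onto. -/
def StGRD : Prop := ∀ (g : Type u) [LieRing g] [LieAlgebra ℂ g] [FiniteDimensional ℂ g]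
  [LieAlgebra.IsSemisimple ℂ g] (e : g), e ≠ 0 → IsNilpotent (LieAlgebra.ad ℂ g e) →
  ∃ (h f : g) (N : ℕ) (pr : ℤ → g →ₗ[ℂ] g), Sl e h f N pr

/-- MODULE BAS (basic facts on the grading; see the structure `SlF`).
PROOF.  From the fields of `Sl`: `pr i (pr j x) = 0` for `i ≠ j`, `pr i (pr i x) = pr i x` (`fix`, `eig`),
`x = ∑ pr j x`.  So `x ∈ g_(≥ j)` iff `x = ∑_{i ≥ j} pr i x`.  `[g_i, g_j] ⊆ g_(i+j)` by the Jacobi
identity and `fix`.  `κ (pr i x) (pr j y) = 0` for `i + j ≠ 0`, since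
`i κ (x_i, y_j) = κ ([h, x_i], y_j) = - κ (x_i, [h, y_j]) = - j κ (x_i, y_j)` (invariance of the Killing
form).  `stab`: for `x ∈ Q` all `(ad h)^k x = ∑_i i^k pr i x ∈ Q`; by Lagrange interpolation `pr i x` is a
linear combination of these.  `nil`: `[u, ·]` maps `g_(≤ j)` to `g_(≤ j - 1)`.  `N2`: `pr 2 e = e ≠ 0`
(`e ≠ 0` by `IsSl2Triple.e_ne_zero`) and `top`. -/
def StBAS : Prop := ∀ (g : Type u) [LieRing g] [LieAlgebra ℂ g] [FiniteDimensional ℂ g]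
  (e h f : g) (N : ℕ) (pr : ℤ → g →ₗ[ℂ] g), Sl e h f N pr → SlF e h f N pr

/-- MODULE BAE (facts on `ad e`; see the structure `SlE`).  Input: `StBAS`.
PROOF.  `ad e` maps `g_j` to `g_(j+2)`.  (1) `ad e : g_(j-2) → g_j` is onto for `j ≥ 1` (`sur`: `y = (ad e)^j x`,
`x ∈ g_(-j)`, so `y = [e, (ad e)^(j-1) x]`, and `(ad e)^(j-1) x ∈ g_(j-2)`); it is injective on `g_(-j)` for
`j ≥ 1` (`inj`).  `surj`: decompose `v = ∑_{j ≥ 2} v_j`, `v_j = [e, x_j]`, `x_j ∈ g_(j-2)`, take `- ∑ x_j`.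
(2) `ker0`: if `[e, x] = 0` then `[e, pr i x] = 0` for all `i` (the components of `[e, x]`), so
`pr i x = 0` for `i ≤ -1`.  (3) `ker1`: moreover `pr 0 x = [e, pr (-2) y]` and `[e, [e, pr (-2) y]] = 0`, so
`pr (-2) y = 0` (`inj` for `j = 2`), `pr 0 x = 0`.
(4) `dim`: `range (ad e) = ad e (g_(≤ -1)) ⊕ g_(≥ 2)`: `g_(≥ 2) ⊆ range` by `surj`; `x = x' + x''` with
`x' ∈ g_(≤ -1)`, `x'' ∈ g_(≥ 0)` and `[e, x''] ∈ g_(≥ 2)`; if `[e, x'] ∈ g_(≥ 2)`, `x' ∈ g_(≤ -1)`, then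
`[e, x'] = [e, x'']` with `x'' ∈ g_(≥ 0)`, `x' - x'' ∈ ker (ad e) ⊆ g_(≥ 0)`, so `x' = 0`; `ad e` is injective
on `g_(≤ -1)` by `ker0`. -/
def StBAE : Prop := ∀ (g : Type u) [LieRing g] [LieAlgebra ℂ g] [FiniteDimensional ℂ g]
  (e h f : g) (N : ℕ) (pr : ℤ → g →ₗ[ℂ] g), Sl e h f N pr → SlE e h f N pr

/-- MODULE GPF (the groups `GP P`; see the structure `GPs`).
PROOF.  Project NO (`Pool.Agent.Helper67.NO.Main`): `mDAD` gives, in the basis `b = Module.finBasis ℂ g`,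
`toMatrix b b (expAd x) = exp (adM b x)`.  `ser`: `exp` of a matrix as a power series, applied to the vector of
`x`; all terms with `i ≥ k` vanish (`((ad v)^i) x = 0` for `i ≥ k`).  `neg`, `zero`: `exp (-M) exp M = 1`.
`lie`: `expAd v` is an automorphism: both sides of
`expAd (t v) [x, y] = [expAd (t v) x, expAd (t v) y]` solve the same linear differential equation in `t` with the
same value at `0`, or use the Cauchy product of the two exponential series and the Leibniz rule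
`(ad v)^n [x, y] = ∑ C(n, i) [(ad v)^i x, (ad v)^(n-i) y]` (or `mDAD` (4) and the injectivity of `adM` for
centreless `g`; but here `g` is arbitrary).  `kil`: the Killing form is invariant under automorphisms
(`LieAlgebra.killingForm_of_equiv_apply` or the trace).  `sub` for `expAd v`: `Q` is stable under `ad v`, hence under
all partial sums, and `Q` is closed (finite-dimensional); or: `expAd v` is a polynomial in `ad v`
(Cayley-Hamilton: finite-dimensional subalgebras are closed).  `rk`: `ad (w x) = w ∘ ad x ∘ w⁻¹`.  The statements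
for `GP` follow by induction; the inverse of `expAd v ∘ w` is `w' ∘ expAd (-v)`, which is in `GP P` by `mul`. -/
def StGPF : Prop := ∀ (g : Type u) [LieRing g] [LieAlgebra ℂ g] [FiniteDimensional ℂ g], GPs g

/-- MODULE HPC (calculus of homogeneous polynomial maps; see the structure `HPc`).
PROOF.  Everything from `MvPolynomial.IsHomogeneous`; `co` is linear (`Basis.repr`), a linear functional is
`x ↦ ∑ φ(b_i) co x i`; `⁅F x, G x⁆ = ∑_{i, j} co (F x) i co (G x) j ⁅b_i, b_j⁆`; `det` and `adjugate` are sums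
of products of entries (`Matrix.det_apply`, `Matrix.adjugate_apply`, or `adjugate i j` = ± determinant of a
submatrix: `Matrix.adjugate_fin_succ_eq_det_submatrix`); `vcomp`: substitute (`MvPolynomial.bind₁`,
`IsHomogeneous.eval₂` / `MvPolynomial.IsHomogeneous.aeval`). -/
def StHPC : Prop := ∀ (g : Type u) [LieRing g] [LieAlgebra ℂ g] [FiniteDimensional ℂ g], HPc g

/-- MODULE CRA (Cramer's rule for a singular system).
PROOF.  (1) existence of an invertible `r × r` submatrix, `r = rank M` (choose `r` independent rows, then `r`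
independent columns of these rows).  (2) Let `A = M.submatrix I K`, `v = ∑_k (A.adjugate b_I)_k e_(K k)`.
For `i`: `(M v)_(I i) = ∑_k M_(I i, K k) (A.adjugate b_I)_k = (A A.adjugate b_I)_i = det A · b_(I i)`.  The vector
`d = M v - det A • b` is in the range of `M` and `d_(I i) = 0` for all `i`.  The rows `I i` of `M` are
independent (`det A ≠ 0`), and there are `rank M` of them, so every row of `M` is a linear combination of them:
`d = M c` and `(M c)_(I i) = 0` for all `i` imply `M c = 0`. -/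
def StCRA : Prop := (∀ (D : ℕ) (M : Matrix (Fin D) (Fin D) ℂ),
    ∃ I K : Fin M.rank → Fin D, (M.submatrix I K).det ≠ 0) ∧
  ∀ (D r : ℕ) (M : Matrix (Fin D) (Fin D) ℂ) (I K : Fin r → Fin D) (b : Fin D → ℂ),
    M.rank = r → (M.submatrix I K).det ≠ 0 → (∃ v, M.mulVec v = b) →
    M.mulVec (∑ k, ((M.submatrix I K).adjugate.mulVec (fun i => b (I i))) k • Pi.single (K k) 1) =
      (M.submatrix I K).det • b

/-- MODULE CHM.  Inputs: `StCRA`, `StHPC`, `StGPF`.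
PROOF.  Let `M x` be the matrix of `(ad x)^2` in the basis `Module.finBasis ℂ g`: its entries are in
`HP 2`.  `s = rank (M e) ≥ 1` since `[e, [e, f]] = - 2 e ≠ 0`.  `M (w e)` has the same rank for `GP ⊤ w`
(`ad (w e) = w ∘ ad e ∘ w⁻¹`).  Choose `I`, `K` for `M e` (`StCRA`), `q x = det (M x).submatrix I K`, in
`HP (2 s)`, and `F x = - 2 ∑_k ((M x).submatrix I K).adjugate (co x)_I)_k b_(K k)`, in `HV (2 (s - 1) + 1)`;
`r = 2 s - 1`.  For `x = w e`: `(ad x)^2 (w f) = w [e, [e, f]] = - 2 x`, so `x` is in the range, and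
`StCRA` gives `[x, [x, F x]] = - 2 q x • x`. -/
def StCHM : Prop := ∀ (g : Type u) [LieRing g] [LieAlgebra ℂ g] [FiniteDimensional ℂ g]
  (e h f : g) (N : ℕ) (pr : ℤ → g →ₗ[ℂ] g), Sl e h f N pr →
  ∃ (r : ℕ) (q : g → ℂ) (F : g → g), HP (r + 1) q ∧ HV r F ∧ q e ≠ 0 ∧
    ∀ w, GP (⊤ : Submodule ℂ g) w → q (w e) ≠ 0 →
      ⁅w e, ⁅w e, F (w e)⁆⁆ = -((2 * q (w e)) • w e)

/-- MODULE PRJ (the projector to `w (g_(≥ j))`).  Inputs: `StBAS`, `StBAE`, `StGPF`.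
PROOF.  Let `a = ∏_{-N ≤ i ≤ N, i < j} (X - i)`, `b = ∏_{-N ≤ i ≤ N, j ≤ i} (X - i)` (products over
`Finset.Icc (-N) N` filtered): coprime, `c a + d b = 1`; take `P = c a`.
Let `n ∈ g_(≥ 1)` and `A = ad (h + n)`.  `A - i` maps `g_(≥ i)` to `g_(≥ i + 1)` (on `g_i` the operator `ad h` is
`i`, and `[n, ·]` raises the degree).  So `a(A)` maps `g = g_(≥ -N)` to `g_(≥ j)` (if `j ≤ N + 1`; for `j > N + 1`
also `g_(≥ j) = 0 = g_(≥ N+1)`), and `b(A)` kills `g_(≥ j)`; all polynomials in `A` preserve `g_(≥ j)`.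
So `P(A)` maps `g` to `g_(≥ j)` and is the identity on `g_(≥ j)`.
For `x = w e`, `F` as in the statement, let `w'` be the inverse of `w` (`GPs.inv`; `w'` also preserves brackets), and
`H = w' [x, F] = [e, w' F]`.  `[H, e] = w' [[x, F], x] = 2 e`.  `H - h` commutes with `e` and `H - h = [e, w' F - f]`,
so `H - h ∈ g_(≥ 1)` (`ker1`).  `ad [x, F] = w ∘ ad H ∘ w'`, so `P(ad [x, F]) = w ∘ P(ad H) ∘ w'`. -/
def StPRJ : Prop := ∀ (g : Type u) [LieRing g] [LieAlgebra ℂ g] [FiniteDimensional ℂ g]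
  (e h f : g) (N : ℕ) (pr : ℤ → g →ₗ[ℂ] g), Sl e h f N pr → ∀ j : ℤ, ∃ P : Polynomial ℂ,
    ∀ w, GP (⊤ : Submodule ℂ g) w → ∀ F : g, ⁅w e, ⁅w e, F⁆⁆ = -((2 : ℂ) • w e) →
      (∀ x, ∃ y ∈ ge pr j,
        (Polynomial.aeval (LieAlgebra.ad ℂ g ⁅w e, F⁆ : Module.End ℂ g) P) x = w y) ∧
      (∀ y ∈ ge pr j,
        (Polynomial.aeval (LieAlgebra.ad ℂ g ⁅w e, F⁆ : Module.End ℂ g) P) (w y) = w y)

/-- MODULE TRA (transversality and the projection along `g_(≤ j-1)`).  Inputs: `StCHM`, `StPRJ`, `StHPC`,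
`StBAS`, `StGPF`.
PROOF.  Let `P` be as in `StPRJ`, `M = P.natDegree`, `r, q, F` as in `StCHM`.  Put
`A x = ∑_{k ≤ M} P.coeff k • q x ^ (M - k) • (ad ⁅x, F x⁆)^k`, in `HL (M (r + 1))`.  For `x = w e`, `q x ≠ 0`:
`F' = (q x)⁻¹ • F x` satisfies `[x, [x, F']] = - 2 x`, so `A x = q x ^ M • P(ad ⁅x, F'⁆)`, hence `A x v ∈ w (g_(≥ j))`
for all `v`, and `A x (w y) = q x ^ M • w y` for `y ∈ g_(≥ j)`.
Let `b_1, ..., b_n` be a basis of `g_(≥ j)` and `β_a : g → ℂ` linear with `∑ β_a(v) b_a` = the projection of `v` to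
`g_(≥ j)` along `g_(≤ j - 1)` (`SlF.cpl`).  `S x = (β_a (A x b_c))_{a, c}`, entries in `HP (M (r + 1))`.  Put
`t x = q x * det (S x)`, `T x v = q x • ∑_{a, c} (adj (S x))_{a c} β_c(v) • A x b_a`,
`k = (r + 1) + n M (r + 1)` (if `n = 0` then `T = 0`, which is in every `HL k`).
`t e ≠ 0`: `A e b_c = q e ^ M b_c` so `S e = q e ^ M • 1`.
Let `x = w e`, `t x ≠ 0`.  The map `c ↦ A x (∑ c_a b_a) = w (y_c)`, `y_c ∈ g_(≥ j)`, has `β (w y_c) = S x c`: as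
`S x` is invertible `y ↦ β (w y)` is onto `ℂ^n` from the `n`-dimensional space `g_(≥ j)`, so it is injective: this is
the first claim (`w y ∈ g_(≤ j-1)` means `β (w y) = 0`).  For `v ∈ g_(≥ j)`: `T x v = q x A x (∑_a c_a b_a)` with
`c = adj (S x) β(v)`, which is in `w (g_(≥ j))`, and `β (T x v) = q x S x adj (S x) β(v) = t x β(v)`, so
`T x v - t x v ∈ ker β = g_(≤ j-1)`. -/
def StTRA : Prop := ∀ (g : Type u) [LieRing g] [LieAlgebra ℂ g] [FiniteDimensional ℂ g]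
  (e h f : g) (N : ℕ) (pr : ℤ → g →ₗ[ℂ] g), Sl e h f N pr → ∀ j : ℤ,
  ∃ (k : ℕ) (t : g → ℂ) (T : g → (g →ₗ[ℂ] g)), 0 < k ∧ HP k t ∧ HL k T ∧ t e ≠ 0 ∧
    ∀ w, GP (⊤ : Submodule ℂ g) w → t (w e) ≠ 0 →
      (∀ y ∈ ge pr j, w y ∈ le pr (j - 1) → y = 0) ∧
      (∀ v ∈ ge pr j, ∃ y ∈ ge pr j, T (w e) v = w y ∧ T (w e) v - t (w e) • v ∈ le pr (j - 1))

/-- MODULE HMG (homogenization).  Input: `StHPC`.
PROOF.  Let `co (ν x) i = pev (P i) x` and let `b` be larger than the total degrees of the `P i`.  For `b' ≥ b` and each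
`i` put `W_i x = ∑_{s ∈ support (P i)} coeff s (P i) * t x ^ (b' - |s|) * ∏_l (co (V x) l) ^ (s l)`, in
`HP (b' k)` (`|s| ≤ b`), and `W x = ∑ W_i x • b_i` (`b_i` the basis).  If `t x ≠ 0` then
`W_i x = t x ^ b' * pev (P i) ((t x)⁻¹ • V x)`. -/
def StHMG : Prop := ∀ (g : Type u) [LieRing g] [LieAlgebra ℂ g] [FiniteDimensional ℂ g]
  (ν : g → g), (∀ i, ∃ P : MvPolynomial (Fin (Module.finrank ℂ g)) ℂ, ∀ x, co (ν x) i = pev P x) →
  ∃ b : ℕ, ∀ b', b ≤ b' → ∀ (k : ℕ) (t : g → ℂ) (V : g → g), HP k t → HV k V →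
    ∃ W : g → g, HV (b' * k) W ∧ ∀ x, t x ≠ 0 → W x = t x ^ b' • ν ((t x)⁻¹ • V x)

/-- MODULE NUN (`exp (g_(≤ -1))` acts simply transitively on `h + g_(≤ -1)`).  Inputs: `StBAS`, `StGPF`.
PROOF.  Let `L = ∑_{i=1}^{N} i⁻¹ • pr (-i)`.  For `u ∈ g_(≤ -1)`: `L [u, h] = u` (`[u, h] = - [h, u]`, and
`- [h, u_(-i)] = i u_(-i)`) and `[L v, h] = v` for `v ∈ g_(≤ -1)`.  Let `R u = ∑_{k=2}^{2N} (k!)⁻¹ (ad u)^k h`, so
`expAd u h = h + [u, h] + R u` for `u ∈ g_(≤ -1)` (`ser`, `nil0`), and `R u ∈ g_(≤ -1)`.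
(1) If `u, u' ∈ g_(≤ -1)`, `u - u' ∈ g_(≤ -s)`, `s ≥ 1`, then `R u - R u' ∈ g_(≤ -s-1)`: for `k ≥ 2`
`(ad u)^k h - (ad u')^k h = ∑_{a+b=k-1} (ad u)^a (ad (u - u')) (ad u')^b h`, and each term is in `g_(≤ -(s + k - 1))`.
(2) Uniqueness: if `expAd u h = expAd u' h` then `u - u' = L (R u' - R u)`; by induction on `s` (`L` preserves
`g_(≤ -s)`) `u - u' ∈ g_(≤ -s)` for all `s ≥ 1`, so `u = u'`.
(3) Existence: `u_0 = 0`, `u_(s+1) = L (n - R u_s)`, where `n` is replaced by its projection `pr' n` to `g_(≤ -1)`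
(`pr' = ∑_{i=1}^N pr (-i)`, to have maps defined on all of `g`).  By (1) `u_(s+1) - u_s ∈ g_(≤ -s-1)`, so
`u_N = u_(N+1)`, i.e. `[u_N, h] + R u_N = n`.  `ν n = u_N`: polynomial in the coordinates of `n`, since `R` is a polynomial map
(closure of polynomial maps under linear maps, sums and brackets). -/
def StNUN : Prop := ∀ (g : Type u) [LieRing g] [LieAlgebra ℂ g] [FiniteDimensional ℂ g]
  (e h f : g) (N : ℕ) (pr : ℤ → g →ₗ[ℂ] g), Sl e h f N pr →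
  ∃ ν : g → g, (∀ i, ∃ P : MvPolynomial (Fin (Module.finrank ℂ g)) ℂ, ∀ x, co (ν x) i = pev P x) ∧
    ∀ n ∈ le pr (-1), ν n ∈ le pr (-1) ∧ expAd (ν n) h = h + n ∧
      ∀ u ∈ le pr (-1), expAd u h = h + n → u = ν n

/-- MODULE OPP.  Inputs: `StBAS`, `StGPF`.
PROOF.  `Q = w (g_(≥ 2))` (the image submodule) is stable under `ad h`: `h = w y₀`, `y₀ ∈ g_(≥ 0)`, and
`[w y₀, w z] = w [y₀, z]`, `[g_(≥ 0), g_(≥ 2)] ⊆ g_(≥ 2)`.  So for `x ∈ Q` all `pr i x ∈ Q` (`SlF.stab`).  For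
`i ≤ 1`: `pr i x = w z` with `z ∈ g_(≥ 2)`, and `pr i x ∈ g_(≤ 1)`, so `z = 0`, `pr i x = 0`.  So `x ∈ g_(≥ 2)`. -/
def StOPP : Prop := ∀ (g : Type u) [LieRing g] [LieAlgebra ℂ g] [FiniteDimensional ℂ g]
  (e h f : g) (N : ℕ) (pr : ℤ → g →ₗ[ℂ] g), Sl e h f N pr → ∀ w, GP (⊤ : Submodule ℂ g) w →
  (∃ y ∈ ge pr 0, w y = h) → (∀ y ∈ ge pr 2, w y ∈ le pr 1 → y = 0) →
  ∀ y ∈ ge pr 2, w y ∈ ge pr 2

/-- MODULE INV (the rational inverse of the chart).  Inputs: `StTRA`, `StHMG`, `StNUN`, `StOPP`, `StHPC`,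
`StBAS`, `StGPF`.
PROOF.  Let `(k₀, t₀, T₀)` and `(k₂, t₂, T₂)` be given by `StTRA` for `j = 0` and `j = 2`.  Put `k = k₀ + k₂`,
`t = t₀ t₂`, `V x = t₂ x • T₀ x h`, in `HV k`.  Let `ν` be as in `StNUN`, `ν' v = ν (v - h)`, and `b` as in `StHMG` for
`ν'`, `b ≥ 1`; `W x = t x ^ b • ν' ((t x)⁻¹ • V x)` for `t x ≠ 0`, `W` in `HV (b k)`.  Put `a = 2 N b`,
`Nu x = t x ^ (a - b) • W x`, `Ny x = ∑_{i ≤ 2N} (-1)^i (i!)⁻¹ t x ^ (a - i b) • (ad (W x))^i x`, in `HV (a k + 1)`.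
(A) Let `x = w e`, `t x ≠ 0`.  `h ∈ g_(≥ 0)`, so `T₀ x h = w y₀`, `y₀ ∈ g_(≥ 0)`, and `n = (t x)⁻¹ • V x - h =
(t₀ x)⁻¹ • (T₀ x h - t₀ x h) ∈ g_(≤ -1)`.  Let `u = ν n ∈ g_(≤ -1)`: `expAd u h = h + n = w ((t₀ x)⁻¹ y₀)`.
Let `w' = expAd (-u) ∘ w` (in `GP ⊤`): `h = w' ((t₀ x)⁻¹ y₀)`.  If `y ∈ g_(≥ 2)`, `w' y ∈ g_(≤ 1)` then
`w y = expAd u (w' y) ∈ g_(≤ 1)` (`GPs.sub` with `P = g_(≤ -1)`), so `y = 0` by `StTRA` for `j = 2`.  By `StOPP`
`y := w' e ∈ g_(≥ 2)`, and `expAd u y = w e`.  `Nu x = t x ^ a • u`, and `Ny x = t x ^ a • expAd (-u) x = t x ^ a • y`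
(`ser` with `nil0`).
(B) Let `u ∈ g_(≤ -1)`, `b' ∈ GP (g_(≥ 0))`, `x = expAd u (b' e) = w e`, `w = expAd u ∘ b'`, `t x ≠ 0`.  As in (A)
`T₀ x h = w y₀ = expAd u (b' y₀)`, `c = (t₀ x)⁻¹ b' y₀ ∈ g_(≥ 0)`, `expAd u c = h + n`, `n ∈ g_(≤ -1)`.  So
`c = expAd (-u) (h + n)` and `c - h ∈ g_(≤ -1)` (`expAd (-u) h - h ∈ g_(≤ -1)` by `ser`, `expAd (-u) n ∈ g_(≤ -1)`), and
`c - h ∈ g_(≥ 0)`, so `c = h`, `expAd u h = h + n`, and `u = ν n` by uniqueness.  So `Nu x = t x ^ a • u` and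
`Ny x = t x ^ a • expAd (-u) x = t x ^ a • b' e`. -/
def StINV : Prop := ∀ (g : Type u) [LieRing g] [LieAlgebra ℂ g] [FiniteDimensional ℂ g]
  (e h f : g) (N : ℕ) (pr : ℤ → g →ₗ[ℂ] g), Sl e h f N pr →
  ∃ (k a : ℕ) (t : g → ℂ) (Nu Ny : g → g), 0 < k ∧ HP k t ∧ HV (a * k) Nu ∧ HV (a * k + 1) Ny ∧
    t e ≠ 0 ∧
    (∀ w, GP (⊤ : Submodule ℂ g) w → t (w e) ≠ 0 → ∃ u ∈ le pr (-1), ∃ y ∈ ge pr 2,
      expAd u y = w e ∧ Nu (w e) = t (w e) ^ a • u ∧ Ny (w e) = t (w e) ^ a • y) ∧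
    (∀ u ∈ le pr (-1), ∀ b, GP (ge pr 0) b → t (expAd u (b e)) ≠ 0 →
      Nu (expAd u (b e)) = t (expAd u (b e)) ^ a • u ∧
      Ny (expAd u (b e)) = t (expAd u (b e)) ^ a • b e)

/-- MODULE OPN (orbits are locally everything).  Input: `StORB` part (4) or directly the derivative of `expAd`
at `0` (the proof does not need semisimplicity).
PROOF.  Let `X_1, ..., X_k` be a basis of `P`; `Θ : ℂ^k → E = Fin D → ℂ`, `Θ w = co (expAd (∑ w_j X_j) y)`.  It is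
`C^1` (`expAd` is the exponential of a matrix which depends linearly on `w`), with values in the subspace
`co(Q)` (`Q` is stable under `ad v`, `v ∈ P`: `GPs.sub`), `Θ 0 = co y`, and its derivative at `0` is
`w ↦ co ⁅∑ w_j X_j, y⁆`, which maps onto `co(Q)`.  By the open mapping part of the inverse function theorem
(`HasStrictFDerivAt.map_nhds_eq_of_surj`, for `Θ` as a map to the finite-dimensional space `co(Q)`) the image of `Θ`
contains a neighbourhood of `co y` in `co(Q)`. -/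
def StOPN : Prop := ∀ (g : Type u) [LieRing g] [LieAlgebra ℂ g] [FiniteDimensional ℂ g]
  (P Q : Submodule ℂ g), (∀ v ∈ P, ∀ x ∈ Q, ⁅v, x⁆ ∈ Q) → ∀ y ∈ Q, (∀ v ∈ Q, ∃ x ∈ P, ⁅x, y⁆ = v) →
  ∃ ε : ℝ, 0 < ε ∧ ∀ y' ∈ Q, size (y' - y) < ε → ∃ x ∈ P, expAd x y = y'

/-- MODULE CON (the open orbit in `g_(≥ 2)`).  Inputs: `StOPN`, `StHPC`, `StBAS`, `StBAE`, `StGPF`, `StCRA`.
PROOF.  Let `b_1, ..., b_n` be a basis of `g_(≥ 2)` with coordinate functionals `β_a : g → ℂ` (extended to `g`), and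
choose `c_1, ..., c_n ∈ g_(≥ 0)` with `[c_i, e] = b_i` (`SlE.surj`).  `Δ₀ y = det (β_a [c_i, y])_{a, i}`, in
`HP n`, `Δ₀ e = 1`.  If `y ∈ g_(≥ 2)`, `Δ₀ y ≠ 0` then the `[c_i, y]` form a basis of `g_(≥ 2)`, so
`[g_(≥ 0), y] = g_(≥ 2)`.  Let such a `y` be given, `l(s) = e + s (y - e)`, `s ∈ ℂ`.  `T = {s | Δ₀ (l(s)) ≠ 0}` contains
`0` and `1` and is the complement of the finite zero set of a nonzero polynomial in one variable, so it is connected
(`Set.Countable.isPathConnected_compl_of_one_lt_rank`).  `T' = {s ∈ T | l(s) = b e for some b ∈ GP (g_(≥ 0))}` is open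
and closed in `T`: for `s ∈ T` `StOPN` (`P = g_(≥ 0)`, `Q = g_(≥ 2)`, at the point `l(s)`) gives for `s'` near `s` an
`x ∈ g_(≥ 0)` with `expAd x (l(s)) = l(s')`; so `s ∈ T'` iff `s' ∈ T'` (use `expAd (-x)` for the converse).  `0 ∈ T'`, so
`1 ∈ T'`. -/
def StCON : Prop := ∀ (g : Type u) [LieRing g] [LieAlgebra ℂ g] [FiniteDimensional ℂ g]
  (e h f : g) (N : ℕ) (pr : ℤ → g →ₗ[ℂ] g), Sl e h f N pr →
  ∃ (k : ℕ) (Δ₀ : g → ℂ), HP k Δ₀ ∧ Δ₀ e ≠ 0 ∧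
    ∀ y ∈ ge pr 2, Δ₀ y ≠ 0 → ∃ b, GP (ge pr 0) b ∧ b e = y

end Pool.Agent.Helper67.KPG
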