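import Pool.Agent.Helper67.KPG.DefsC
import Pool.Agent.Helper67.KPG.St1
import Pool.Agent.Helper52.KP.StF

/-!
# Project KP (MP_26be5b_ag), chapter G, algebraic part 3: the chart and the symplectic form

For every statement `StXX` prove `theorem hXX : StXX` in `Pool/Agent/<You>/KPG/M_XX.lean`; statements
named in the docstring may be taken as hypotheses (`theorem hXX : StA → StB → StXX`); the statements
`StBAS`, `StBAE`, `StGPF`, `StHPC`, `StINV`, `StCON` are in `St2.lean`.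
-/

set_option autoImplicit false

namespace Pool.Agent.Helper67.KPG

open Pool.Agent.Helper67.NO Pool.Agent.Helper52.KP

universe u

/-- MODULE PVC (calculus of polynomial maps `ℂ^m → g`; see the structure `PVc`).
PROOF.  `co` is linear; a linear functional on `g` is a linear combination of the coordinates;
`⁅F z, G z⁆ = ∑_{i, j} co (F z) i co (G z) j ⁅b_i, b_j⁆`, `b = Module.finBasis ℂ g`; `vcomp`: substitute the
polynomials of the coordinates of `G` in the polynomial of `F` (`MvPolynomial.bind₁`). -/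
def StPVC : Prop := ∀ (g : Type u) [LieRing g] [LieAlgebra ℂ g] [FiniteDimensional ℂ g] (m : ℕ),
  PVc g m

/-- MODULE BSX.  Inputs: `StBAS`, `StBAE`.
PROOF.  Let `p' = finrank (g_(≤ -1))`, `q = finrank (g_(≥ 2))`, `m = p' + q = rk e` (`SlE.dim`); `E` = a basis of
`g_(≤ -1)` followed by a basis of `g_(≥ 2)` (`Fin.append`), `w` = `0` on the first, `1` on the second block.  The two
subspaces are disjoint (`SlF.cpl` for `j = 0`, `SlF.gemono`), so `E` is linearly independent.  `spn`: take the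
coordinates of `u` and of `y`. -/
def StBSX : Prop := ∀ (g : Type u) [LieRing g] [LieAlgebra ℂ g] [FiniteDimensional ℂ g]
  (e h f : g) (N : ℕ) (pr : ℤ → g →ₗ[ℂ] g), Sl e h f N pr →
  ∃ (m : ℕ) (w : Fin m → ℕ) (E : Fin m → g), Bs e pr w E

/-- MODULE PHI (the chart is polynomial and homogeneous).  Inputs: `StBAS`, `StGPF`, `StPVC`.
PROOF.  `phi w E z = ∑_{i ≤ 2N} (i!)⁻¹ (ad (uu z))^i (yy z)` by `GPs.ser` and `SlF.nil0`, so `PV`.  `scl` does not change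
the coordinates with `w j = 0` and multiplies the other ones by `c`.  The functionals `φ j`: a functional with
`φ (E j) = 1`, `φ (E i) = 0` for `i ≠ j` (`E` is linearly independent).  `om`: `th N (uu z) (E i)` is a sum of terms
`(ad (uu z))^k (E i)`, so everything is in `PC`. -/
def StPHI : Prop := ∀ (g : Type u) [LieRing g] [LieAlgebra ℂ g] [FiniteDimensional ℂ g]
  (e h f : g) (N : ℕ) (pr : ℤ → g →ₗ[ℂ] g), Sl e h f N pr →
  ∀ (m : ℕ) (w : Fin m → ℕ) (E : Fin m → g), Bs e pr w E →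
    (∀ z, uu w E z ∈ le pr (-1)) ∧ (∀ z, yy w E z ∈ ge pr 2) ∧ PV (phi w E) ∧
    (∀ (c : ℂ) z, phi w E (scl w c z) = c • phi w E z) ∧
    (∀ (c : ℂ) z, uu w E (scl w c z) = uu w E z ∧ yy w E (scl w c z) = c • yy w E z) ∧
    (∀ j, ∃ φ : g →ₗ[ℂ] ℂ, ∀ z, (w j = 0 → φ (uu w E z) = z j) ∧ (w j = 1 → φ (yy w E z) = z j)) ∧
    (∀ i j, PC (fun z => om N w E z i j))

/-- MODULE DXP (derivative of the exponential map).  Inputs: `StGPF`.
PROOF.  Work with the matrices `A`, `B` of `ad u`, `ad a` in the basis `Module.finBasis ℂ g`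
(`toMatrix (expAd x) = exp (adM x)`, `mDAD` of project NO).  Let `D(t)` be the derivative at `s = 0` of
`exp (t (A + s B))`, `t ∈ ℝ` (or `t ∈ ℂ`).  `exp` is analytic; exchanging the derivatives in `s` and `t`:
`D'(t) = ∂_s ((A + s B) exp (t (A + s B)))|_{s=0} = B exp (t A) + A D(t)`, `D(0) = 0`.  So `Y(t) = exp (- t A) D(t)`
satisfies `Y'(t) = exp (- t A) B exp (t A)`, which is the matrix of `ad (expAd (- t u) a)` (`expAd (- t u)` is an
automorphism with inverse `expAd (t u)`: `GPs.lie`, `GPs.neg`), and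
`expAd (- t u) a = ∑_{k ≤ 2N} ((- t)^k / k!) (ad u)^k a` (`GPs.ser`).  Integrating from `0` to `1` (the right side is
the derivative of `∑ (-1)^k t^(k+1) / (k+1)! ad ((ad u)^k a)`, and both vanish at `0`):
`Y(1) = ad (th N u a)`, so `D(1) = exp A · ad (th N u a)`. -/
def StDXP : Prop := ∀ (g : Type u) [LieRing g] [LieAlgebra ℂ g] [FiniteDimensional ℂ g]
  (u a : g) (N : ℕ), (∀ x, ((LieAlgebra.ad ℂ g u : Module.End ℂ g) ^ (2 * N + 1)) x = 0) → ∀ x : g,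
  HasDerivAt (fun s : ℂ => co (expAd (u + s • a) x)) (co (expAd u ⁅th N u a, x⁆)) 0

/-- MODULE DPH (the derivative of the chart).  Inputs: `StDXP`, `StPHI`, `StBAS`, `StGPF`.
PROOF.  `z ↦ co (phi w E z)` is polynomial (`StPHI`), so differentiable, and its derivative in the direction
`Pi.single i 1` is the derivative at `s = 0` of `co (phi w E (z + s • Pi.single i 1))`.  If `w i = 0` then
`uu` changes to `uu z + s • E i` and `yy` does not change, and `StDXP` gives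
`co (expAd u ⁅th N u (E i), yy z⁆)`, `u = uu z`, and `expAd u ⁅a, y⁆ = ⁅expAd u a, expAd u y⁆`.  If `w i = 1` then `uu`
does not change and `yy` changes to `yy z + s • E i`; `expAd u` is linear. -/
def StDPH : Prop := ∀ (g : Type u) [LieRing g] [LieAlgebra ℂ g] [FiniteDimensional ℂ g]
  (e h f : g) (N : ℕ) (pr : ℤ → g →ₗ[ℂ] g), Sl e h f N pr →
  ∀ (m : ℕ) (w : Fin m → ℕ) (E : Fin m → g), Bs e pr w E → ∀ (z : Fin m → ℂ) (i : Fin m),
    fderiv ℂ (fun z => co (phi w E z)) z (Pi.single i 1) = co (tv N w E z i)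

/-- MODULE IMM (the derivatives of the chart are a basis of the tangent space).  Inputs: `StBAS`, `StBAE`,
`StGPF`, `StPHI`.
PROOF.  Let `u = uu z`, `y = yy z = b e`, `b' = b⁻¹ ∈ GP (g_(≥ 0))` (`GPs.inv`); `b`, `b'` preserve all `g_(≥ j)`,
`j ∈ ℤ` (`GPs.sub`).  (a) `[g_(≥ 0), y] = g_(≥ 2)`: for `v ∈ g_(≥ 2)`: `b' v = [x, e]`, `x ∈ g_(≥ 0)`, so
`v = [b x, y]`.  (b) `ker (ad y) = b (ker (ad e)) ⊆ g_(≥ 0)` (`SlE.ker0`).
Every `tv i` is in `range (ad (phi z))`: clear if `w i = 0`; if `w i = 1`: `E i = [x, y]`, `x ∈ g_(≥ 0)`,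
`expAd u (E i) = [expAd u x, phi z]`.
Independence: let `∑ c_i tv i = 0`.  Apply `expAd (-u)`: `[a, y] + v = 0`, `a = th N u a₀`,
`a₀ = ∑_{w i = 0} c_i E i ∈ g_(≤ -1)`, `v = ∑_{w i = 1} c_i E i ∈ g_(≥ 2)`.  `a ∈ g_(≤ -1)`.  By (a) `[a, y] = [x, y]`
with `x ∈ g_(≥ 0)`, by (b) `a - x ∈ g_(≥ 0)`, so `a ∈ g_(≥ 0) ∩ g_(≤ -1) = 0`.  `th N u` is injective on `g_(≤ -1)`:
`th N u a₀ - a₀` is a combination of `(ad u)^k a₀`, `k ≥ 1`; if `a₀ ∈ g_(≤ -s)` (`s ≥ 1`) then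
`a₀ = a₀ - th N u a₀ ∈ g_(≤ -s-1)`, and so on, so `a₀ = 0`.  So `c_i = 0` for `w i = 0` and then `v = 0`,
`c_i = 0` for `w i = 1`.
The range has dimension `rk (phi z) = rk e = m` (`phi z = expAd u (b e)`, `GPs.rk`), so the `m` independent vectors
span it. -/
def StIMM : Prop := ∀ (g : Type u) [LieRing g] [LieAlgebra ℂ g] [FiniteDimensional ℂ g]
  (e h f : g) (N : ℕ) (pr : ℤ → g →ₗ[ℂ] g), Sl e h f N pr →
  ∀ (m : ℕ) (w : Fin m → ℕ) (E : Fin m → g), Bs e pr w E →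
  ∀ (b : g →ₗ[ℂ] g) (z : Fin m → ℂ), GP (ge pr 0) b → yy w E z = b e →
    LinearIndependent ℂ (tv N w E z) ∧ Submodule.span ℂ (Set.range (tv N w E z)) =
      LinearMap.range (LieAlgebra.ad ℂ g (phi w E z) : g →ₗ[ℂ] g)

/-- MODULE KKS (the symplectic form in the chart).  Inputs: `StIMM`, `StBAS`, `StBAE`, `StGPF`, `StPHI`.
PROOF.  Let `x = phi z`, `T_i = tv i = [Z_i, x]`, `u = uu z`, `y = yy z`, `κ` the Killing form.
`κ(x, [Z_i, Z_j]) = κ([x, Z_i], Z_j) = - κ(T_i, Z_j)`, and it is antisymmetric in `i, j`.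
If `w i = 0`, `X_i = expAd u (th N u (E i))`: `κ(T_i, Z_j) = κ([X_i, x], Z_j) = κ(X_i, [x, Z_j]) = - κ(X_i, T_j)`, so
`κ(x, [Z_i, Z_j]) = κ(X_i, T_j)`: for `w j = 0` it is `κ(X_i, [X_j, x]) = κ(x, [X_i, X_j])
= κ(y, [th N u (E i), th N u (E j)])` (`GPs.kil`, `GPs.lie` for `expAd u`); for `w j = 1` it is
`κ(expAd u (th N u (E i)), expAd u (E j)) = κ(E j, th N u (E i))`.  The case `w i = 1`, `w j = 0` by antisymmetry.
If `w i = w j = 1`: `- κ(T_i, Z_j) = - κ(E i, Z')`, `Z' = expAd (-u) Z_j`, `[Z', y] = E j ∈ g_(≥ 2)`; as in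
`StIMM` (a), (b): `E j = [x', y]` with `x' ∈ g_(≥ 0)` and `Z' - x' ∈ ker (ad y) ⊆ g_(≥ 0)`, so `Z' ∈ g_(≥ 0)` and
`κ(E i, Z') = 0` (`SlF.kge`).
Determinant: let `∑_j om i j c_j = 0` for all `i`, `Z = ∑ c_j Z_j`.  Then `κ(T_i, Z) = 0` for all `i`.  The `T_i` span
`range (ad x)` (`StIMM`), so `0 = κ([X, x], Z) = κ(X, [x, Z])` for all `X`, and `κ` is nondegenerate, so
`0 = [Z, x] = ∑ c_j T_j` and `c = 0`.  (`Z` exists only as given; if no such `Z_i` are given there is nothing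
to prove.) -/
def StKKS : Prop := ∀ (g : Type u) [LieRing g] [LieAlgebra ℂ g] [FiniteDimensional ℂ g]
  [LieAlgebra.IsSemisimple ℂ g]
  (e h f : g) (N : ℕ) (pr : ℤ → g →ₗ[ℂ] g), Sl e h f N pr →
  ∀ (m : ℕ) (w : Fin m → ℕ) (E : Fin m → g), Bs e pr w E →
  ∀ (b : g →ₗ[ℂ] g) (z : Fin m → ℂ), GP (ge pr 0) b → yy w E z = b e →
  ∀ Z : Fin m → g, (∀ i, ⁅Z i, phi w E z⁆ = tv N w E z i) →
    (∀ i j, killingForm ℂ g (phi w E z) ⁅Z i, Z j⁆ = om N w E z i j) ∧ (om N w E z).det ≠ 0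

/-- MODULE PFA (the determinant of an alternating matrix is a square).
PROOF.  Let `K` be the fraction field of `A = MvPolynomial (Fin m) ℂ`.  (1) Over a field `K` of characteristic
`0`: `det M` is a square for `M j i = - M i j`, by induction on `n`.  `n = 0`: `1`; `n = 1`: `0`.  `n ≥ 2`: if the
first row is `0` then `det M = 0`.  Otherwise after a permutation of the indices (the same for rows and columns, which
does not change the determinant) the block `P` of the first two indices is `(0, a; -a, 0)`, `a ≠ 0`.  With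
`M = (P, B; - Bᵀ, D)`: `det M = det P * det (D + Bᵀ P⁻¹ B)` (`Matrix.det_fromBlocks₁₁`), `det P = a^2`, and
`D + Bᵀ P⁻¹ B` is again antisymmetric (`P⁻¹` is).  (2) So `det M = r^2` with `r ∈ K`; `r` is integral over `A`, and `A`
is integrally closed (a unique factorization domain), so `r ∈ A`. -/
def StPFA : Prop := ∀ (m n : ℕ) (M : Matrix (Fin n) (Fin n) (MvPolynomial (Fin m) ℂ)),
  (∀ i j, M j i = -M i j) → ∃ J : MvPolynomial (Fin m) ℂ, M.det = J ^ 2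

/-- MODULE OMJ (the Pfaffian `J`).  Inputs: `StPFA`, `StPHI`.
PROOF.  Let `M i j` be the polynomial of `om i j` (`StPHI`); `om` is antisymmetric (clear from the definition, the
bracket is antisymmetric), hence so is `M` (`MvPolynomial.funext`).  `StPFA`: `det M = J^2`, so
`det (om z) = ev J z ^ 2`.
Let `p' = #{w = 0}`, `q = #{w = 1}`.  For `c ≠ 0`: `om (scl w c z) = D₁ * om z * D₂`, `D₁ = diag(1 if w i = 0, c⁻¹ if
w i = 1)`, `D₂ = diag(c if w j = 0, 1 if w j = 1)` (`uu` does not change, `yy` is multiplied by `c`, only the block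
`w i = w j = 0` contains `yy`, linearly).  So `c^q det (om (scl w c z)) = c^p' det (om z)` for `c ≠ 0`, hence
`c^q (ev J (scl w c z))^2 = c^p' (ev J z)^2`, an identity of polynomials in `c` (both sides are polynomials in `c` which
agree for `c ≠ 0`).  For `z` with `ev J z ≠ 0` (it exists by hypothesis): `p' ≥ q` and
`(ev J (scl w c z))^2 = c^(p'-q) (ev J z)^2`; comparing degrees `p' - q = 2 jd` and
`(ev J (scl w c z) - c^jd ev J z) (ev J (scl w c z) + c^jd ev J z) = 0` in `ℂ[c]`, so one factor is `0`; the second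
is `2 ev J z ≠ 0` at `c = 1`, so the first one is `0`.  If `ev J z = 0` then `c^q (ev J (scl w c z))^2 = 0`, so
`ev J (scl w c z) = 0` for all `c`.  `2 (jd + ∑ w j) = p' - q + 2 q = m`. -/
def StOMJ : Prop := ∀ (g : Type u) [LieRing g] [LieAlgebra ℂ g] [FiniteDimensional ℂ g]
  (e h f : g) (N : ℕ) (pr : ℤ → g →ₗ[ℂ] g), Sl e h f N pr →
  ∀ (m : ℕ) (w : Fin m → ℕ) (E : Fin m → g), Bs e pr w E → (∃ z, (om N w E z).det ≠ 0) →
  ∃ (J : MvPolynomial (Fin m) ℂ) (jd : ℕ), (∀ z, (om N w E z).det = ev J z ^ 2) ∧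
    (∀ (c : ℂ) z, ev J (scl w c z) = c ^ jd * ev J z) ∧ 2 * (jd + ∑ j, w j) = m

/-- MODULE PTX (domain and image of the chart).  Inputs: `StINV`, `StCON`, `StPHI`, `StPVC`, `StHPC`, `StGPF`,
`StBAS`.
PROOF.  Let `k, a, t, Nu, Ny` be as in `StINV`, `kΔ, Δ₀` as in `StCON`.  Put `p x = t x * Δ₀ (Ny x)`, in `HP d`,
`d = k + kΔ (a k + 1)`; `Δ` = the polynomial of `z ↦ Δ₀ (yy z) * t (phi z)` (`PVc.vcomp`).  With `φ j` as in `StPHI`:
`ψ j x = φ j (Nu x) * Δ₀ (Ny x) ^ a` if `w j = 0`, `ψ j x = φ j (Ny x) * Δ₀ (Ny x) ^ a` if `w j = 1`; degrees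
`a k + a kΔ (a k + 1) = a d`, resp. `a d + 1`.
(1) `Δ ≠ 0`: let `z` be with `uu z = 0`, `yy z = e` (`Bs.spn`): `phi z = e`, `ev Δ z = Δ₀ e * t e ≠ 0`.
(2) `ev Δ z ≠ 0`: `Δ₀ (yy z) ≠ 0`, so `StCON` gives `b` with `yy z = b e`.  (3) `scl`: homogeneity
(`Δ₀ (c y) = c^kΔ Δ₀ y`, `t (c x) = c^k t x`, `StPHI`).
(4) Let `x = w e`, `p x ≠ 0`.  Then `t x ≠ 0`, and `StINV` gives `u`, `y` with `expAd u y = x`,
`Ny x = t x ^ a • y`, so `Δ₀ (Ny x) = t x ^ (a kΔ) * Δ₀ y` and `Δ₀ y ≠ 0`.  Take `z` with `uu z = u`, `yy z = y`: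
`phi z = x`, `ev Δ z = Δ₀ y * t x ≠ 0`.  Conversely let `ev Δ z ≠ 0`, `x = phi z`, `yy z = b e`, `t x ≠ 0`.  The second
part of `StINV` (`u = uu z`): `Nu x = t x ^ a • uu z`, `Ny x = t x ^ a • yy z`; so
`Δ₀ (Ny x) = t x ^ (a kΔ) * Δ₀ (yy z) ≠ 0` and `p x ≠ 0`; `x` is in the orbit (`GPs.orb`, `GPs.mul`, `GPs.exp`).
(5) `ψ j (phi z) = z j * t x ^ a * Δ₀ (Ny x) ^ a = z j * p x ^ a`. -/
def StPTX : Prop := ∀ (g : Type u) [LieRing g] [LieAlgebra ℂ g] [FiniteDimensional ℂ g]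
  (e h f : g) (N : ℕ) (pr : ℤ → g →ₗ[ℂ] g), Sl e h f N pr →
  ∀ (m : ℕ) (w : Fin m → ℕ) (E : Fin m → g), Bs e pr w E →
  ∃ (Δ : MvPolynomial (Fin m) ℂ) (d a : ℕ) (p : g → ℂ) (ψ : Fin m → g → ℂ),
    0 < d ∧ HP d p ∧ (∀ j, HP (a * d + w j) (ψ j)) ∧ Δ ≠ 0 ∧
    (∀ z, ev Δ z ≠ 0 → ∃ b, GP (ge pr 0) b ∧ yy w E z = b e) ∧
    (∀ (c : ℂ) z, c ≠ 0 → ev Δ z ≠ 0 → ev Δ (scl w c z) ≠ 0) ∧
    (∀ x, Orb e x → (p x ≠ 0 ↔ ∃ z, ev Δ z ≠ 0 ∧ phi w E z = x)) ∧
    (∀ z, ev Δ z ≠ 0 → Orb e (phi w E z) ∧ ∀ j, ψ j (phi w E z) = z j * p (phi w E z) ^ a)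

/-- MODULE PHL (polynomials are holomorphic on the orbit).  Input: `StORB` (of helper52's StG).
PROOF.  `F (chart x X v)` is a polynomial in the coordinates `co (chart x X v)`, which are differentiable functions of `v`
(`StORB`: `HolMap Set.univ (chart x X)`); homogeneity: a homogeneous polynomial of degree `k` satisfies
`F (c • x) = c^k F x`. -/
def StPHL : Prop := ∀ (g : Type u) [LieRing g] [LieAlgebra ℂ g] [FiniteDimensional ℂ g]
  [LieAlgebra.IsSemisimple ℂ g] (x₀ : g) (k : ℕ) (F : g → ℂ), HP k F →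
  (fun x : OO x₀ => F x.1) ∈ Hol x₀ k

end Pool.Agent.Helper67.KPG
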