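import Pool.Agent.Helper67.KPG.St2
import Pool.Agent.Helper67.KPG.St3

/-!
# Project KP (MP_26be5b_ag), chapter G: assembly of the chart
-/

set_option autoImplicit false

namespace Pool.Agent.Helper67.KPG

open Pool.Agent.Helper67.NO Pool.Agent.Helper52.KP

universe u

section
variable {g : Type u} [LieRing g] [LieAlgebra ℂ g] [FiniteDimensional ℂ g]

theorem co_injective {x y : g} (h : co x = co y) : x = y := by
  apply (Module.finBasis ℂ g).repr.injective
  ext i
  exact congrFun h i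

/-- `co` as a linear map -/
noncomputable def coL : g →ₗ[ℂ] (Fin (Module.finrank ℂ g) → ℂ) :=
  (Module.finBasis ℂ g).equivFun.toLinearMap

theorem coL_apply (x : g) : coL x = co x := rfl

end

/-- The chart of a nilpotent orbit exists. -/
theorem hCHX (hGRD : StGRD.{u}) (hBSX : StBSX.{u}) (hPHI : StPHI.{u}) (hDPH : StDPH.{u})
    (hIMM : StIMM.{u}) (hKKS : StKKS.{u}) (hOMJ : StOMJ.{u}) (hPTX : StPTX.{u})
    (hPHL : StPHL.{u}) (hGPF : StGPF.{u}) : StCHX.{u} := by
  intro g _ _ _ _ e he hn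
  obtain ⟨h, f, N, pr, hSl⟩ := hGRD g e he hn
  obtain ⟨m, w, E, hB⟩ := hBSX g e h f N pr hSl
  obtain ⟨hu, hy, hPV, hhom, hsc, hφ, hom⟩ := hPHI g e h f N pr hSl m w E hB
  obtain ⟨Δ, d, a, p, ψ, hd, hp, hψ, hΔ0, hΔb, hΔs, hΔp, hΔψ⟩ := hPTX g e h f N pr hSl m w E hB
  have hG := hGPF g
  -- a point of the domain
  obtain ⟨z₀, hz₀⟩ : ∃ z₀, ev Δ z₀ ≠ 0 := by
    by_contra hcon
    push Not at hcon
    exact hΔ0 (MvPolynomial.funext (fun z => by simpa using hcon z))
  -- frames
  have hfr : ∀ z, ev Δ z ≠ 0 → ∃ Z : Fin m → g, ∀ i, ⁅Z i, phi w E z⁆ = tv N w E z i := by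
    intro z hz
    obtain ⟨b, hb, hyb⟩ := hΔb z hz
    obtain ⟨-, hs⟩ := hIMM g e h f N pr hSl m w E hB b z hb hyb
    have : ∀ i, ∃ X : g, ⁅X, phi w E z⁆ = tv N w E z i := by
      intro i
      have h1 : tv N w E z i ∈ LinearMap.range (LieAlgebra.ad ℂ g (phi w E z) : g →ₗ[ℂ] g) := by
        rw [← hs]
        exact Submodule.subset_span ⟨i, rfl⟩
      obtain ⟨X, hX⟩ := h1
      refine ⟨-X, ?_⟩
      rw [← hX, neg_lie, ← lie_skew, neg_neg]
      rfl
    choose Z hZ using this
    exact ⟨Z, hZ⟩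
  have hdet : ∀ z, ev Δ z ≠ 0 → (om N w E z).det ≠ 0 := by
    intro z hz
    obtain ⟨b, hb, hyb⟩ := hΔb z hz
    obtain ⟨Z, hZ⟩ := hfr z hz
    exact (hKKS g e h f N pr hSl m w E hB b z hb hyb Z hZ).2
  obtain ⟨J, jd, hJ, hJs, hJd⟩ := hOMJ g e h f N pr hSl m w E hB ⟨z₀, hdet z₀ hz₀⟩
  have hrk : rk e = 2 * hdim e := by
    have h1 : hdim e = rk e / 2 := rfl
    have h2 := hB.hm
    omega
  have hm2 : m = 2 * hdim e := by
    have := hB.hm
    omega
  have hm0 : 0 < m := by
    rcases Nat.eq_zero_or_pos m with h0 | h0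
    · exfalso
      have h1 : rk e = 0 := by rw [← hB.hm, h0]
      have h2 : (LieAlgebra.ad ℂ g e : g →ₗ[ℂ] g) = 0 := by
        have h3 : LinearMap.range (LieAlgebra.ad ℂ g e : g →ₗ[ℂ] g) = ⊥ :=
          Submodule.finrank_eq_zero.mp h1
        exact LinearMap.range_eq_bot.mp h3
      have h3 : ⁅e, f⁆ = 0 := by
        have := congrArg (fun L : g →ₗ[ℂ] g => L f) h2
        simpa using this
      exact hSl.tri.h_ne_zero (by rw [← hSl.tri.lie_e_f, h3])
    · exact h0
  exact ⟨{
    m := m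
    w := w
    Φ := phi w E
    Δ := Δ
    J := J
    jd := jd
    d₁ := d
    p₁ := fun x => p x.1
    hm := hm2
    hrk := hB.hm
    hn := by omega
    w01 := hB.w01
    deg := by omega
    poly := by
      intro i
      obtain ⟨P, hP⟩ := hPV i
      exact ⟨P, hP⟩
    hom := hhom
    Jhom := hJs
    Δ0 := hΔ0
    orb := fun z hz => (hΔψ z hz).1
    sclU := fun c z hc hz => hΔs c z hc hz
    J0 := by
      intro z hz h0
      apply hdet z hz
      rw [hJ z]
      change (MvPolynomial.eval z J) ^ 2 = 0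
      rw [h0]
      simp
    inj := by
      intro z z' hz hz' hzz
      funext j
      have h1 := (hΔψ z hz).2 j
      have h2 := (hΔψ z' hz').2 j
      rw [← hzz, h1] at h2
      have h3 : p (phi w E z) ≠ 0 := (hΔp _ (hΔψ z hz).1).2 ⟨z, hz, rfl⟩
      exact mul_right_cancel₀ (pow_ne_zero a h3) h2
    kks := by
      intro z hz Z hZ
      obtain ⟨b, hb, hyb⟩ := hΔb z hz
      have hZ' : ∀ i, ⁅Z i, phi w E z⁆ = tv N w E z i := by
        intro i
        apply co_injective
        rw [hZ i, hDPH g e h f N pr hSl m w E hB z i]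
      have h1 := (hKKS g e h f N pr hSl m w E hB b z hb hyb Z hZ').1
      have h2 : (Matrix.of fun i j : Fin m => killingForm ℂ g (phi w E z) ⁅Z i, Z j⁆) =
          om N w E z := by
        ext i j
        exact h1 i j
      rw [h2, hJ z, norm_pow]
    imm := by
      intro z hz
      obtain ⟨b, hb, hyb⟩ := hΔb z hz
      have h1 := (hIMM g e h f N pr hSl m w E hB b z hb hyb).1
      have h2 : (fun i : Fin m => fderiv ℂ (fun z => co (phi w E z)) z (Pi.single i 1)) =
          fun i => coL (tv N w E z i) := by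
        funext i
        rw [hDPH g e h f N pr hSl m w E hB z i]
        rfl
      rw [h2]
      exact h1.map' coL (LinearMap.ker_eq_bot.mpr (fun x y hxy => co_injective hxy))
    d1 := hd
    p1mem := hPHL g e d p hp
    p1 := fun x => hΔp x.1 x.2
    crd := by
      intro j
      refine ⟨a, fun x => ψ j x.1, hPHL g e (a * d + w j) (ψ j) (hψ j), fun z hz => ?_⟩
      have h1 := hΔψ z hz
      have e1 : ext (fun x : OO e => ψ j x.1) (phi w E z) = ψ j (phi w E z) := by
        unfold ext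
        rw [dif_pos h1.1]
      have e2 : ext (fun x : OO e => p x.1) (phi w E z) = p (phi w E z) := by
        unfold ext
        rw [dif_pos h1.1]
      rw [e1, e2]
      exact h1.2 j }⟩

end Pool.Agent.Helper67.KPG
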