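import Pool.Agent.Helper67.KPG.St2
import Pool.Agent.Helper67.KPG.St3

set_option autoImplicit false

namespace Pool.Agent.Helper67.KPG

open Pool.Agent.Helper67.NO Pool.Agent.Helper52.KP

universe u

theorem differentiable_eval {m : ℕ} (P : MvPolynomial (Fin m) ℂ) :
    Differentiable ℂ (fun z : Fin m → ℂ => MvPolynomial.eval z P) := by
  induction P using MvPolynomial.induction_on with
  | C a => simp
  | add p q hp hq =>
    have : Differentiable ℂ (fun z : Fin m → ℂ =>
        MvPolynomial.eval z p + MvPolynomial.eval z q) := hp.add hq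
    simpa using this
  | mul_X p i hp =>
    have : Differentiable ℂ (fun z : Fin m → ℂ => MvPolynomial.eval z p * z i) :=
      hp.mul (differentiable_apply i)
    simpa using this

theorem hDPH (hDXP : StDXP.{u}) (hPHI : StPHI.{u}) (hBAS : StBAS.{u}) (hGPF : StGPF.{u}) :
    StDPH.{u} := by
  intro g _ _ _ e h f N pr hSl m w E hB z i
  obtain ⟨hu, hy, hPV, -, -, -, -⟩ := hPHI g e h f N pr hSl m w E hB
  have hF := hBAS g e h f N pr hSl
  have hG := hGPF g
  have hdif : Differentiable ℂ (fun z : Fin m → ℂ => co (phi w E z)) := by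
    rw [differentiable_pi]
    intro j
    obtain ⟨P, hP⟩ := hPV j
    have e1 : (fun z : Fin m → ℂ => co (phi w E z) j) = fun z => MvPolynomial.eval z P := by
      funext z
      exact hP z
    rw [e1]
    exact differentiable_eval P
  have h1 : HasDerivAt (fun s : ℂ => co (phi w E (z + s • (Pi.single i (1 : ℂ) : Fin m → ℂ))))
      (fderiv ℂ (fun z => co (phi w E z)) z (Pi.single i 1)) 0 := by
    have h2 : HasDerivAt (fun s : ℂ => z + s • (Pi.single i (1 : ℂ) : Fin m → ℂ))
        (Pi.single i 1) 0 := by
      simpa using ((hasDerivAt_id (0 : ℂ)).smul_const (Pi.single i (1 : ℂ) : Fin m → ℂ)).const_add z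
    have h3 : HasFDerivAt (fun z => co (phi w E z)) (fderiv ℂ (fun z => co (phi w E z)) z)
        (z + (0 : ℂ) • (Pi.single i (1 : ℂ) : Fin m → ℂ)) := by
      rw [zero_smul, add_zero]
      exact (hdif z).hasFDerivAt
    exact h3.comp_hasDerivAt 0 h2
  refine h1.unique ?_
  have hsum : ∀ (k : ℕ) (s : ℂ), (∑ j, if w j = k then (z + s • (Pi.single i (1 : ℂ) :
      Fin m → ℂ)) j • E j else 0) = (∑ j, if w j = k then z j • E j else 0) +
      (if w i = k then s • E i else 0) := by
    intro k s
    have e1 : (if w i = k then s • E i else 0) =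
        ∑ j, (if w j = k then (s • (Pi.single i (1 : ℂ) : Fin m → ℂ)) j • E j else 0) := by
      rw [Finset.sum_eq_single i]
      · simp
      · intro j _ hj
        simp [Pi.single_eq_of_ne hj]
      · intro h
        exact absurd (Finset.mem_univ i) h
    rw [e1, ← Finset.sum_add_distrib]
    refine Finset.sum_congr rfl (fun j _ => ?_)
    by_cases hj : w j = k
    · simp only [if_pos hj, Pi.add_apply, add_smul]
    · simp only [if_neg hj, add_zero]
  rcases hB.w01 i with hi | hi
  · have e1 : (fun s : ℂ => co (phi w E (z + s • (Pi.single i (1 : ℂ) : Fin m → ℂ)))) =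
        fun s : ℂ => co (expAd (uu w E z + s • E i) (yy w E z)) := by
      funext s
      unfold phi uu yy
      rw [hsum 0 s, hsum 1 s, if_pos hi, if_neg (by omega), add_zero]
    rw [e1]
    have h4 := hDXP g (uu w E z) (E i) N (hF.nil0 _ (hu z)) (yy w E z)
    have e2 : tv N w E z i = expAd (uu w E z) ⁅th N (uu w E z) (E i), yy w E z⁆ := by
      unfold tv
      rw [if_pos hi]
      have h5 := hG.lie ⊤ _ (hG.exp ⊤ (uu w E z) trivial) (th N (uu w E z) (E i)) (yy w E z)
      rw [h5]
      rfl
    rw [e2]
    exact h4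
  · have e1 : (fun s : ℂ => co (phi w E (z + s • (Pi.single i (1 : ℂ) : Fin m → ℂ)))) =
        fun s : ℂ => co (phi w E z) + s • co (expAd (uu w E z) (E i)) := by
      funext s
      unfold phi uu yy
      rw [hsum 0 s, hsum 1 s, if_pos hi, if_neg (by omega), add_zero, map_add, map_smul]
      funext k
      simp [co]
    rw [e1]
    have e2 : tv N w E z i = expAd (uu w E z) (E i) := by
      unfold tv
      rw [if_neg (by omega)]
    rw [e2]
    simpa using ((hasDerivAt_id (0 : ℂ)).smul_const (co (expAd (uu w E z) (E i)))).const_add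
      (co (phi w E z))

end Pool.Agent.Helper67.KPG
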