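import Pool.Agent.Helper67.KPG.JM
import Pool.Agent.Helper67.KPG.M_CHX
import Pool.Agent.Helper14.KP.M_ORB
import Pool.Agent.Helper36.KPG.M_GRD
import Pool.Agent.Helper16.KPG.M_BAS
import Pool.Agent.Helper89.KPG.M_BAE
import Pool.Agent.Helper78.KPG.M_GPF
import Pool.Agent.Helper95.KPG.M_HPC
import Pool.Agent.Helper42.KPG.M_CRA
import Pool.Agent.Helper6.KPG.M_CHM
import Pool.Agent.Helper26.KPG.M_PRJ
import Pool.Agent.Helper97.KPG.M_TRA
import Pool.Agent.Helper28.KPG.M_HMG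
import Pool.Agent.Helper84.KPG.M_NUN
import Pool.Agent.Helper24.KPG.M_OPP
import Pool.Agent.Helper53.KPG.M_INV
import Pool.Agent.Helper8.KPG.M_OPN
import Pool.Agent.Helper7.KPG.M_CON
import Pool.Agent.Helper27.KPG.M_PVC
import Pool.Agent.Helper29.KPG.M_BSX
import Pool.Agent.Helper7.KPG.M_PHI
import Pool.Agent.Helper2.KPG.M_DXP
import Pool.Agent.Helper67.KPG.M_DPH
import Pool.Agent.Helper2.KPG.M_IMM
import Pool.Agent.Helper42.KPG.M_KKS
import Pool.Agent.Helper62.KPG.M_PFA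
import Pool.Agent.Helper58.KPG.M_OMJ
import Pool.Agent.Helper69.KPG.M_PTX
import Pool.Agent.Helper28.KPG.M_PHL

/-!
# Project KP (MP_26be5b_ag), chapter G: the chart of every nonzero nilpotent orbit
-/

set_option autoImplicit false

namespace Pool.Agent.Helper67.KPG

open Pool.Agent.Helper67.NO Pool.Agent.Helper52.KP

universe u

theorem aORB : Pool.Agent.Helper52.KP.StORB.{u} := Pool.Agent.Helper14.KP.hORB
theorem aGRD : StGRD.{u} := Pool.Agent.Helper36.KPG.hGRD hJM aSLT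
theorem aBAS : StBAS.{u} := Pool.Agent.Helper16.KPG.hBAS
theorem aBAE : StBAE.{u} := Pool.Agent.Helper89.KPG.hBAE aBAS
theorem aGPF : StGPF.{u} := Pool.Agent.Helper78.KPG.hGPF
theorem aHPC : StHPC.{u} := Pool.Agent.Helper95.KPG.hHPC
theorem aCRA : StCRA := Pool.Agent.Helper42.KPG.hCRA
theorem aCHM : StCHM.{u} := Pool.Agent.Helper6.KPG.hCHM aCRA aHPC aGPF
theorem aPRJ : StPRJ.{u} := Pool.Agent.Helper26.KPG.hPRJ aBAS aBAE aGPF
theorem aTRA : StTRA.{u} := Pool.Agent.Helper97.KPG.hTRA aCHM aPRJ aHPC aBAS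
theorem aHMG : StHMG.{u} := Pool.Agent.Helper28.KPG.hHMG aHPC
theorem aNUN : StNUN.{u} := Pool.Agent.Helper84.KPG.hNUN aBAS aGPF
theorem aOPP : StOPP.{u} := Pool.Agent.Helper24.KPG.hOPP aBAS aGPF
theorem aINV : StINV.{u} := Pool.Agent.Helper53.KPG.hINV aTRA aHMG aNUN aOPP aHPC aBAS aGPF
theorem aOPN : StOPN.{u} := Pool.Agent.Helper8.KPG.hOPN aGPF
theorem aCON : StCON.{u} := Pool.Agent.Helper7.KPG.hCON aOPN aHPC aBAS aBAE aGPF
theorem aPVC : StPVC.{u} := Pool.Agent.Helper27.KPG.hPVC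
theorem aBSX : StBSX.{u} := Pool.Agent.Helper29.KPG.hBSX aBAS aBAE
theorem aPHI : StPHI.{u} := Pool.Agent.Helper7.KPG.hPHI aBAS aGPF aPVC
theorem aDXP : StDXP.{u} := Pool.Agent.Helper2.KPG.hDXP aGPF
theorem aDPH : StDPH.{u} := hDPH aDXP aPHI aBAS aGPF
theorem aIMM : StIMM.{u} := Pool.Agent.Helper2.KPG.hIMM aBAS aBAE aGPF aPHI
theorem aKKS : StKKS.{u} := Pool.Agent.Helper42.KPG.hKKS aIMM aBAS aBAE aGPF aPHI
theorem aPFA : StPFA := Pool.Agent.Helper62.KPG.hPFA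
theorem aOMJ : StOMJ.{u} := Pool.Agent.Helper58.KPG.hOMJ aPFA aPHI
theorem aPTX : StPTX.{u} :=
  Pool.Agent.Helper69.KPG.hPTX aINV aCON aPHI aPVC aHPC aGPF aBAS
theorem aPHL : StPHL.{u} := Pool.Agent.Helper28.KPG.hPHL aORB

/-- Every nonzero nilpotent orbit has a chart. -/
theorem aCHX : StCHX.{u} := hCHX aGRD aBSX aPHI aDPH aIMM aKKS aOMJ aPTX aPHL aGPF

end Pool.Agent.Helper67.KPG
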