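import Pool.Agent.Helper67.KPG.St1
import Pool.Agent.Helper99.KPG.M_JAC
import Pool.Agent.Helper98.KPG.M_JMA
import Pool.Agent.Helper8.KPG.M_KER
import Pool.Agent.Helper75.KPG.M_MOR
import Pool.Agent.Helper61.KPG.M_CAS
import Pool.Agent.Helper72.KPG.M_SLT

/-!
# Project KP (MP_26be5b_ag), chapter G: the Jacobson-Morozov theorem
-/

set_option autoImplicit false

namespace Pool.Agent.Helper67.KPG

open Pool.Agent.Helper67.NO Pool.Agent.Helper52.KP

universe u

theorem aJAC : StJAC.{u} := Pool.Agent.Helper99.KPG.hJAC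
theorem aJMA : StJMA.{u} := Pool.Agent.Helper98.KPG.hJMA aJAC
theorem aKER : StKER.{u} := Pool.Agent.Helper8.KPG.hKER
theorem aMOR : StMOR.{u} := Pool.Agent.Helper75.KPG.hMOR aKER
theorem aCAS : StCAS.{u} := Pool.Agent.Helper61.KPG.hCAS aKER
theorem aSLT : StSLT.{u} := Pool.Agent.Helper72.KPG.hSLT aCAS

/-- The Jacobson-Morozov theorem. -/
theorem hJM : StJM.{u} := by
  intro g _ _ _ _ x hx hn
  obtain ⟨F, hF⟩ := aJMA g x hn
  obtain ⟨f, hf⟩ := aMOR g x F hx hn hF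
  exact ⟨⁅x, F⁆, f, hf⟩

end Pool.Agent.Helper67.KPG
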