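import Pool.Agent.Helper52.KP.Defs

/-!
# Project KP (MP_26be5b_ag), chapters G and H: an orbit with a rational chart, in coordinates

`E = Fin N → ℂ`.  `O` is the orbit, `G` the group.  The polynomial map `Φ : ℂ^m → E` maps
`U = {Δ ≠ 0}` bijectively onto `O ∩ {p ≠ 0}`, and the inverse map is the rational map `ν / p ^ a`.
-/

set_option autoImplicit false

namespace Pool.Agent.Helper67.KPG

open Pool.Agent.Helper52.KP MeasureTheory
open scoped ContDiff Topology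

/-- An orbit with a chart: data. -/
structure OCd (N m : ℕ) where
  /-- the orbit -/
  O : Set (Fin N → ℂ)
  /-- the group -/
  G : Set ((Fin N → ℂ) →ₗ[ℂ] (Fin N → ℂ))
  /-- weights -/
  w : Fin m → ℕ
  /-- the chart -/
  Φ : Fin N → MvPolynomial (Fin m) ℂ
  /-- the domain of the chart is `Δ ≠ 0` -/
  Δ : MvPolynomial (Fin m) ℂ
  /-- the image of the chart is `p ≠ 0` -/
  p : MvPolynomial (Fin N) ℂ
  /-- numerators of the inverse of the chart -/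
  ν : Fin m → MvPolynomial (Fin N) ℂ
  /-- degree of `p` -/
  d : ℕ
  /-- exponent of the denominators of the inverse of the chart -/
  a : ℕ
  /-- the invariant volume form is `J dz` -/
  J : MvPolynomial (Fin m) ℂ
  /-- degree of `J` -/
  jd : ℕ
  /-- number of the polynomials `Q` -/
  nq : ℕ
  /-- degree of the polynomials `Q` -/
  dq : ℕ
  /-- polynomials which vanish at the boundary of `O` -/
  Q : Fin nq → MvPolynomial (Fin N) ℂ

namespace OCd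

variable {N m : ℕ} (K : OCd N m)

/-- the chart as a map -/
noncomputable def ph (z : Fin m → ℂ) : Fin N → ℂ := fun i => ev (K.Φ i) z

/-- the domain of the chart -/
def U : Set (Fin m → ℂ) := {z | ev K.Δ z ≠ 0}

/-- the inverse of the chart -/
noncomputable def inv (x : Fin N → ℂ) : Fin m → ℂ := fun j => ev (K.ν j) x / ev K.p x ^ K.a

/-- the norm on `E` used everywhere -/
noncomputable def nn (x : Fin N → ℂ) : ℝ := ∑ i, ‖x i‖

/-- the norm in the chart -/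
noncomputable def sz (z : Fin m → ℂ) : ℝ := ∑ i, ‖ev (K.Φ i) z‖

/-- the element `A` of the group in the chart -/
noncomputable def tau (A : (Fin N → ℂ) →ₗ[ℂ] (Fin N → ℂ)) (z : Fin m → ℂ) : Fin m → ℂ :=
  K.inv (A (K.ph z))

/-- the domain of `tau A` -/
def UA (A : (Fin N → ℂ) →ₗ[ℂ] (Fin N → ℂ)) : Set (Fin m → ℂ) :=
  {z | ev K.Δ z ≠ 0 ∧ ev K.p (A (K.ph z)) ≠ 0}

/-- holomorphic functions on the orbit -/
def HolO (F : (Fin N → ℂ) → ℂ) : Prop :=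
  ∀ A ∈ K.G, DifferentiableOn ℂ (fun z => F (A (K.ph z))) K.U

/-- homogeneous functions on the orbit -/
def HomO (k : ℤ) (F : (Fin N → ℂ) → ℂ) : Prop :=
  ∀ x ∈ K.O, ∀ c : ℂ, c ≠ 0 → F (c • x) = c ^ k * F x

/-- the homogeneous polynomials in the chart which are bounded by powers of the norm -/
def R (k : ℕ) : Submodule ℂ (MvPolynomial (Fin m) ℂ) where
  carrier := {f | (∀ (c : ℂ) z, ev f (scl K.w c z) = c ^ k * ev f z) ∧
    ∃ B : ℝ, ∀ z ∈ K.U, ‖ev f z‖ ≤ B * K.sz z ^ k}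
  add_mem' := by
    rintro f f' ⟨h1, B, h2⟩ ⟨h1', B', h2'⟩
    refine ⟨fun c z => ?_, B + B', fun z hz => ?_⟩
    · simp only [ev, map_add] at h1 h1' ⊢
      rw [h1 c z, h1' c z]; ring
    · simp only [ev, map_add] at h2 h2' ⊢
      refine (norm_add_le _ _).trans ?_
      have := h2 z hz
      have := h2' z hz
      linarith
  zero_mem' := ⟨fun c z => by simp [ev], 0, fun z _ => by simp [ev]⟩
  smul_mem' := by
    rintro c f ⟨h1, B, h2⟩
    refine ⟨fun c' z => ?_, ‖c‖ * B, fun z hz => ?_⟩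
    · simp only [ev, MvPolynomial.smul_eval] at h1 ⊢
      rw [h1 c' z]; ring
    · simp only [ev, MvPolynomial.smul_eval, norm_mul] at h2 ⊢
      have := mul_le_mul_of_nonneg_left (h2 z hz) (norm_nonneg c)
      linarith

end OCd

/-- An orbit with a chart: the facts. -/
structure OC {N m : ℕ} (K : OCd N m) : Prop where
  hm : 2 ≤ m
  hm2 : Even m
  w01 : ∀ j, K.w j = 0 ∨ K.w j = 1
  /-- `O` is a cone without its vertex -/
  O0 : ∀ x ∈ K.O, x ≠ 0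
  cone : ∀ x ∈ K.O, ∀ c : ℂ, c ≠ 0 → c • x ∈ K.O
  /-- `G` is a group which acts transitively on `O` -/
  Gone : LinearMap.id ∈ K.G
  Gmul : ∀ A ∈ K.G, ∀ B ∈ K.G, A ∘ₗ B ∈ K.G
  Ginv : ∀ A ∈ K.G, ∃ B ∈ K.G, A ∘ₗ B = LinearMap.id ∧ B ∘ₗ A = LinearMap.id
  Gact : ∀ A ∈ K.G, ∀ x ∈ K.O, A x ∈ K.O
  Gtr : ∀ x ∈ K.O, ∀ y ∈ K.O, ∃ A ∈ K.G, A x = y
  Δ0 : K.Δ ≠ 0
  hom : ∀ (c : ℂ) z, K.ph (scl K.w c z) = c • K.ph z
  sclU : ∀ (c : ℂ), c ≠ 0 → ∀ z ∈ K.U, scl K.w c z ∈ K.U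
  /-- the chart and its inverse -/
  phO : ∀ z ∈ K.U, K.ph z ∈ K.O
  php : ∀ z ∈ K.U, ev K.p (K.ph z) ≠ 0
  phν : ∀ (j : Fin m) z, z ∈ K.U → ev (K.ν j) (K.ph z) = z j * ev K.p (K.ph z) ^ K.a
  invU : ∀ x ∈ K.O, ev K.p x ≠ 0 → K.inv x ∈ K.U
  phinv : ∀ x ∈ K.O, ev K.p x ≠ 0 → K.ph (K.inv x) = x
  d0 : 0 < K.d
  phom : K.p.IsHomogeneous K.d
  νhom : ∀ j, (K.ν j).IsHomogeneous (K.a * K.d + K.w j)
  /-- the orbit is irreducible: the translates of `{p ≠ 0}` are dense -/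
  dense : ∀ A ∈ K.G, (K.UA A).Nonempty
  /-- the boundary: it is given by equations, and it is small -/
  dq0 : 0 < K.dq
  Qhom : ∀ i, (K.Q i).IsHomogeneous K.dq
  bd : ∀ x ∈ closure K.O, x ∈ K.O ↔ ∃ i, ev (K.Q i) x ≠ 0
  cov : ∃ c : ℕ → (Fin m → ℂ) → (Fin N → ℂ), (∀ i, Differentiable ℂ (c i)) ∧
    K.O ⊆ ⋃ i, Set.range (c i)
  bcov : ∃ c : ℕ → (Fin (m - 2) → ℂ) → (Fin N → ℂ), (∀ i, Differentiable ℂ (c i)) ∧
    closure K.O \ K.O ⊆ ⋃ i, Set.range (c i)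
  /-- the invariant volume form -/
  J0 : ∀ z ∈ K.U, ev K.J z ≠ 0
  Jhom : ∀ (c : ℂ) z, ev K.J (scl K.w c z) = c ^ K.jd * ev K.J z
  deg : 2 * (K.jd + ∑ j, K.w j) = m
  vol : ∀ A ∈ K.G, ∀ z ∈ K.UA A, ‖ev K.J (K.tau A z)‖ * ‖(fderiv ℂ (K.tau A) z).det‖ = ‖ev K.J z‖

end Pool.Agent.Helper67.KPG
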