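import Pool.Agent.Helper52.KP.StG

/-!
# Project KP (MP_26be5b_ag), chapter G, algebra: definitions

`g` is a Lie algebra over `ℂ`, `(h, e, f)` an `sl2`-triple; `pr j` is the projection to the eigenspace
`g_j` of `ad h`.
-/

set_option autoImplicit false
set_option linter.unusedSectionVars false

namespace Pool.Agent.Helper67.KPG

open Pool.Agent.Helper67.NO Pool.Agent.Helper52.KP

universe u

variable {g : Type u} [LieRing g] [LieAlgebra ℂ g] [FiniteDimensional ℂ g]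

/-- the group generated by the automorphisms `exp (ad v)`, `v ∈ P` -/
inductive GP (P : Submodule ℂ g) : (g →ₗ[ℂ] g) → Prop
  | one : GP P LinearMap.id
  | step (w : g →ₗ[ℂ] g) (v : g) : GP P w → v ∈ P → GP P (expAd v ∘ₗ w)

/-- `(h, e, f)` is an `sl2`-triple, `pr j` is the projection to the eigenspace `g_j` of `ad h` for
the eigenvalue `j`, `g` is the sum of the `g_j`, `|j| ≤ N`, and `(ad e)^j : g_(-j) → g_j` is bijective. -/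
structure Sl (e h f : g) (N : ℕ) (pr : ℤ → g →ₗ[ℂ] g) : Prop where
  tri : IsSl2Triple h e f
  nilp : IsNilpotent (LieAlgebra.ad ℂ g e)
  eig : ∀ (j : ℤ) x, ⁅h, pr j x⁆ = (j : ℂ) • pr j x
  fix : ∀ (j : ℤ) x, ⁅h, x⁆ = (j : ℂ) • x → pr j x = x
  orth : ∀ i j : ℤ, i ≠ j → ∀ x, pr i (pr j x) = 0
  sum : ∀ x, ∑ j ∈ Finset.Icc (-(N : ℤ)) N, pr j x = x
  top : ∀ j : ℤ, (N : ℤ) < |j| → pr j = 0
  inj : ∀ (j : ℕ) x, pr (-(j : ℤ)) x = x → ((LieAlgebra.ad ℂ g e : Module.End ℂ g) ^ j) x = 0 → x = 0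
  sur : ∀ (j : ℕ) y, pr j y = y →
    ∃ x, pr (-(j : ℤ)) x = x ∧ ((LieAlgebra.ad ℂ g e : Module.End ℂ g) ^ j) x = y

/-- `g_(≥ j)` -/
def ge (pr : ℤ → g →ₗ[ℂ] g) (j : ℤ) : Submodule ℂ g := ⨅ (i : ℤ) (_ : i < j), LinearMap.ker (pr i)

/-- `g_(≤ j)` -/
def le (pr : ℤ → g →ₗ[ℂ] g) (j : ℤ) : Submodule ℂ g := ⨅ (i : ℤ) (_ : j < i), LinearMap.ker (pr i)

theorem mem_ge {pr : ℤ → g →ₗ[ℂ] g} {j : ℤ} {x : g} : x ∈ ge pr j ↔ ∀ i < j, pr i x = 0 := by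
  simp [ge]

theorem mem_le {pr : ℤ → g →ₗ[ℂ] g} {j : ℤ} {x : g} : x ∈ le pr j ↔ ∀ i, j < i → pr i x = 0 := by
  simp [le]

/-- Consequences of `Sl` (module BAS). -/
structure SlF (e h f : g) (N : ℕ) (pr : ℤ → g →ₗ[ℂ] g) : Prop where
  brge : ∀ (i j : ℤ) (x y : g), x ∈ ge pr i → y ∈ ge pr j → ⁅x, y⁆ ∈ ge pr (i + j)
  brle : ∀ (i j : ℤ) (x y : g), x ∈ le pr i → y ∈ le pr j → ⁅x, y⁆ ∈ le pr (i + j)
  cpl : ∀ j : ℤ, IsCompl (ge pr j) (le pr (j - 1))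
  gemono : ∀ i j : ℤ, i ≤ j → ge pr j ≤ ge pr i
  lemono : ∀ i j : ℤ, i ≤ j → le pr i ≤ le pr j
  gebot : ∀ j : ℤ, (N : ℤ) < j → ge pr j = ⊥
  getop : ∀ j : ℤ, j ≤ -(N : ℤ) → ge pr j = ⊤
  lebot : ∀ j : ℤ, j < -(N : ℤ) → le pr j = ⊥
  letop : ∀ j : ℤ, (N : ℤ) ≤ j → le pr j = ⊤
  prge : ∀ (i j : ℤ) (x : g), j ≤ i → pr i x ∈ ge pr j
  prle : ∀ (i j : ℤ) (x : g), i ≤ j → pr i x ∈ le pr j
  kge : ∀ (i j : ℤ) (x y : g), x ∈ ge pr i → y ∈ ge pr j → 0 < i + j → killingForm ℂ g x y = 0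
  kle : ∀ (i j : ℤ) (x y : g), x ∈ le pr i → y ∈ le pr j → i + j < 0 → killingForm ℂ g x y = 0
  h0 : h ∈ ge pr 0 ∧ h ∈ le pr 0
  e2 : e ∈ ge pr 2 ∧ e ∈ le pr 2
  N2 : 2 ≤ N
  /-- a subspace stable under `ad h` is the sum of its weight spaces -/
  stab : ∀ Q : Submodule ℂ g, (∀ x ∈ Q, ⁅h, x⁆ ∈ Q) → ∀ x ∈ Q, ∀ i, pr i x ∈ Q
  nil : ∀ u ∈ le pr (-1), ∀ (k : ℕ) (j : ℤ) (x : g), x ∈ le pr j →
    ((LieAlgebra.ad ℂ g u : Module.End ℂ g) ^ k) x ∈ le pr (j - k)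
  nil0 : ∀ u ∈ le pr (-1), ∀ x : g, ((LieAlgebra.ad ℂ g u : Module.End ℂ g) ^ (2 * N + 1)) x = 0

/-- More consequences of `Sl` (module BAE). -/
structure SlE (e h f : g) (N : ℕ) (pr : ℤ → g →ₗ[ℂ] g) : Prop where
  /-- `[g_(≥ 0), e] = g_(≥ 2)` -/
  surj : ∀ v ∈ ge pr 2, ∃ x ∈ ge pr 0, ⁅x, e⁆ = v
  /-- the centralizer of `e` is contained in `g_(≥ 0)` -/
  ker0 : ∀ x : g, ⁅e, x⁆ = 0 → x ∈ ge pr 0
  ker1 : ∀ x y : g, ⁅e, x⁆ = 0 → ⁅e, y⁆ = x → x ∈ ge pr 1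
  dim : Module.finrank ℂ (le pr (-1)) + Module.finrank ℂ (ge pr 2) = rk e

/-- Properties of the groups `GP P` (module GPF). -/
structure GPs (g : Type u) [LieRing g] [LieAlgebra ℂ g] [FiniteDimensional ℂ g] : Prop where
  inv : ∀ (P : Submodule ℂ g) w, GP P w → ∃ w', GP P w' ∧ w ∘ₗ w' = LinearMap.id ∧
    w' ∘ₗ w = LinearMap.id
  mul : ∀ (P : Submodule ℂ g) w w', GP P w → GP P w' → GP P (w ∘ₗ w')
  mono : ∀ (P P' : Submodule ℂ g), P ≤ P' → ∀ w, GP P w → GP P' w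
  exp : ∀ (P : Submodule ℂ g) (v : g), v ∈ P → GP P (expAd v)
  lie : ∀ (P : Submodule ℂ g) w, GP P w → ∀ x y, w ⁅x, y⁆ = ⁅w x, w y⁆
  kil : ∀ (P : Submodule ℂ g) w, GP P w → ∀ x y, killingForm ℂ g (w x) (w y) = killingForm ℂ g x y
  sub : ∀ (P Q : Submodule ℂ g), (∀ v ∈ P, ∀ x ∈ Q, ⁅v, x⁆ ∈ Q) → ∀ w, GP P w → ∀ x ∈ Q, w x ∈ Q
  orb : ∀ x y : g, Orb x y ↔ ∃ w, GP ⊤ w ∧ w x = y
  neg : ∀ v x : g, expAd (-v) (expAd v x) = x ∧ expAd v (expAd (-v) x) = x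
  ser : ∀ (v x : g) (k : ℕ), ((LieAlgebra.ad ℂ g v : Module.End ℂ g) ^ k) x = 0 →
    expAd v x = ∑ i ∈ Finset.range k,
      ((i.factorial : ℂ)⁻¹) • ((LieAlgebra.ad ℂ g v : Module.End ℂ g) ^ i) x
  zero : ∀ x : g, expAd (0 : g) x = x
  rk : ∀ (P : Submodule ℂ g) w, GP P w → ∀ x, Pool.Agent.Helper52.KP.rk (w x) =
    Pool.Agent.Helper52.KP.rk x

/-- homogeneous polynomial functions on `g` -/
def HP (k : ℕ) (F : g → ℂ) : Prop :=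
  ∃ P : MvPolynomial (Fin (Module.finrank ℂ g)) ℂ, P.IsHomogeneous k ∧ ∀ x, F x = pev P x

/-- homogeneous polynomial maps `g → g` -/
def HV (k : ℕ) (F : g → g) : Prop := ∀ i, HP k (fun x => co (F x) i)

/-- homogeneous polynomial families of operators -/
def HL (k : ℕ) (F : g → (g →ₗ[ℂ] g)) : Prop := ∀ y, HV k (fun x => F x y)

/-- The calculus of homogeneous polynomial maps (module HPC). -/
structure HPc (g : Type u) [LieRing g] [LieAlgebra ℂ g] [FiniteDimensional ℂ g] : Prop where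
  zero : ∀ k, HP k (fun _ : g => (0 : ℂ))
  const : ∀ c : ℂ, HP 0 (fun _ : g => c)
  lin : ∀ φ : g →ₗ[ℂ] ℂ, HP 1 (fun x => φ x)
  add : ∀ k (F G : g → ℂ), HP k F → HP k G → HP k (fun x => F x + G x)
  mul : ∀ k l (F G : g → ℂ), HP k F → HP l G → HP (k + l) (fun x => F x * G x)
  pow : ∀ k n (F : g → ℂ), HP k F → HP (n * k) (fun x => F x ^ n)
  smul : ∀ k (c : ℂ) (F : g → ℂ), HP k F → HP k (fun x => c * F x)
  sum : ∀ (ι : Type) (s : Finset ι) k (F : ι → g → ℂ), (∀ i ∈ s, HP k (F i)) →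
    HP k (fun x => ∑ i ∈ s, F i x)
  hom : ∀ k (F : g → ℂ), HP k F → ∀ (c : ℂ) x, F (c • x) = c ^ k * F x
  det : ∀ k n (M : g → Matrix (Fin n) (Fin n) ℂ), (∀ i j, HP k (fun x => M x i j)) →
    HP (n * k) (fun x => (M x).det)
  adj : ∀ k n (M : g → Matrix (Fin n) (Fin n) ℂ), (∀ i j, HP k (fun x => M x i j)) →
    ∀ i j, HP ((n - 1) * k) (fun x => (M x).adjugate i j)
  vid : HV 1 (fun x : g => x)
  vconst : ∀ v : g, HV 0 (fun _ : g => v)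
  vadd : ∀ k (F G : g → g), HV k F → HV k G → HV k (fun x => F x + G x)
  vsum : ∀ (ι : Type) (s : Finset ι) k (F : ι → g → g), (∀ i ∈ s, HV k (F i)) →
    HV k (fun x => ∑ i ∈ s, F i x)
  vsmul : ∀ k l (a : g → ℂ) (F : g → g), HP k a → HV l F → HV (k + l) (fun x => a x • F x)
  vlin : ∀ k (L : g →ₗ[ℂ] g) (F : g → g), HV k F → HV k (fun x => L (F x))
  vfun : ∀ k (φ : g →ₗ[ℂ] ℂ) (F : g → g), HV k F → HP k (fun x => φ (F x))
  vbr : ∀ k l (F G : g → g), HV k F → HV l G → HV (k + l) (fun x => ⁅F x, G x⁆)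
  vhom : ∀ k (F : g → g), HV k F → ∀ (c : ℂ) x, F (c • x) = c ^ k • F x
  vcomp : ∀ k l (F : g → ℂ) (G : g → g), HP k F → HV l G → HP (k * l) (fun x => F (G x))
  lid : HL 0 (fun _ : g => LinearMap.id)
  ladd : ∀ k (F G : g → (g →ₗ[ℂ] g)), HL k F → HL k G → HL k (fun x => F x + G x)
  lsum : ∀ (ι : Type) (s : Finset ι) k (F : ι → g → (g →ₗ[ℂ] g)), (∀ i ∈ s, HL k (F i)) →
    HL k (fun x => ∑ i ∈ s, F i x)
  lsmul : ∀ k l (a : g → ℂ) (F : g → (g →ₗ[ℂ] g)), HP k a → HL l F → HL (k + l) (fun x => a x • F x)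
  lad : ∀ k (F : g → g), HV k F → HL k (fun x => (LieAlgebra.ad ℂ g (F x) : g →ₗ[ℂ] g))
  lapp : ∀ k l (F : g → (g →ₗ[ℂ] g)) (G : g → g), HL k F → HV l G → HV (k + l) (fun x => F x (G x))
  lmul : ∀ k l (F G : g → (g →ₗ[ℂ] g)), HL k F → HL l G → HL (k + l) (fun x => F x ∘ₗ G x)
  lpow : ∀ k n (F : g → (g →ₗ[ℂ] g)), HL k F → HL (n * k) (fun x => (F x : Module.End ℂ g) ^ n)

section Chart

variable {m : ℕ}

/-- polynomial functions of `z ∈ ℂ^m` -/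
def PC (F : (Fin m → ℂ) → ℂ) : Prop := ∃ P : MvPolynomial (Fin m) ℂ, ∀ z, F z = ev P z

/-- polynomial maps from `ℂ^m` to `g` -/
def PV (F : (Fin m → ℂ) → g) : Prop := ∀ i, PC (fun z => co (F z) i)

/-- the component of weight `0` of the coordinates -/
noncomputable def uu (w : Fin m → ℕ) (E : Fin m → g) (z : Fin m → ℂ) : g :=
  ∑ j, if w j = 0 then z j • E j else 0

/-- the component of weight `1` of the coordinates -/
noncomputable def yy (w : Fin m → ℕ) (E : Fin m → g) (z : Fin m → ℂ) : g :=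
  ∑ j, if w j = 1 then z j • E j else 0

/-- the chart -/
noncomputable def phi (w : Fin m → ℕ) (E : Fin m → g) (z : Fin m → ℂ) : g :=
  expAd (uu w E z) (yy w E z)

/-- a basis of `g_(≤ -1) + g_(≥ 2)` -/
structure Bs (e : g) (pr : ℤ → g →ₗ[ℂ] g) (w : Fin m → ℕ) (E : Fin m → g) : Prop where
  hm : m = rk e
  w01 : ∀ j, w j = 0 ∨ w j = 1
  li : LinearIndependent ℂ E
  m0 : ∀ j, w j = 0 → E j ∈ le pr (-1)
  m1 : ∀ j, w j = 1 → E j ∈ ge pr 2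
  spn : ∀ u ∈ le pr (-1), ∀ y ∈ ge pr 2, ∃ z : Fin m → ℂ, u = uu w E z ∧ y = yy w E z

/-- `(1 - exp (- ad u)) / ad u` -/
noncomputable def th (N : ℕ) (u : g) : g →ₗ[ℂ] g :=
  ∑ k ∈ Finset.range (2 * N + 1), (((-1 : ℂ) ^ k) / ((k + 1).factorial : ℂ)) •
    ((LieAlgebra.ad ℂ g u : Module.End ℂ g) ^ k)

/-- the derivative of the chart with respect to `z i` -/
noncomputable def tv (N : ℕ) (w : Fin m → ℕ) (E : Fin m → g) (z : Fin m → ℂ) (i : Fin m) : g :=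
  if w i = 0 then ⁅expAd (uu w E z) (th N (uu w E z) (E i)), phi w E z⁆
  else expAd (uu w E z) (E i)

/-- the symplectic form in the chart -/
noncomputable def om (N : ℕ) (w : Fin m → ℕ) (E : Fin m → g) (z : Fin m → ℂ) :
    Matrix (Fin m) (Fin m) ℂ := fun i j =>
  if w i = 0 then
    (if w j = 0 then
      killingForm ℂ g (yy w E z) ⁅th N (uu w E z) (E i), th N (uu w E z) (E j)⁆
    else killingForm ℂ g (E j) (th N (uu w E z) (E i)))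
  else
    (if w j = 0 then -killingForm ℂ g (E i) (th N (uu w E z) (E j)) else 0)

/-- The calculus of polynomial maps on `ℂ^m` (module PVC). -/
structure PVc (g : Type u) [LieRing g] [LieAlgebra ℂ g] [FiniteDimensional ℂ g] (m : ℕ) :
    Prop where
  const : ∀ c : ℂ, PC (fun _ : Fin m → ℂ => c)
  coord : ∀ j : Fin m, PC (fun z => z j)
  add : ∀ F G : (Fin m → ℂ) → ℂ, PC F → PC G → PC (fun z => F z + G z)
  mul : ∀ F G : (Fin m → ℂ) → ℂ, PC F → PC G → PC (fun z => F z * G z)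
  vconst : ∀ v : g, PV (fun _ : Fin m → ℂ => v)
  vadd : ∀ F G : (Fin m → ℂ) → g, PV F → PV G → PV (fun z => F z + G z)
  vsum : ∀ (ι : Type) (s : Finset ι) (F : ι → (Fin m → ℂ) → g), (∀ i ∈ s, PV (F i)) →
    PV (fun z => ∑ i ∈ s, F i z)
  vsmul : ∀ (a : (Fin m → ℂ) → ℂ) (F : (Fin m → ℂ) → g), PC a → PV F → PV (fun z => a z • F z)
  vbr : ∀ F G : (Fin m → ℂ) → g, PV F → PV G → PV (fun z => ⁅F z, G z⁆)
  vpow : ∀ (F G : (Fin m → ℂ) → g) (k : ℕ), PV F → PV G →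
    PV (fun z => ((LieAlgebra.ad ℂ g (F z) : Module.End ℂ g) ^ k) (G z))
  vfun : ∀ (φ : g →ₗ[ℂ] ℂ) (F : (Fin m → ℂ) → g), PV F → PC (fun z => φ (F z))
  vkil : ∀ F G : (Fin m → ℂ) → g, PV F → PV G → PC (fun z => killingForm ℂ g (F z) (G z))
  vcomp : ∀ k (F : g → ℂ) (G : (Fin m → ℂ) → g), HP k F → PV G → PC (fun z => F (G z))
  uu : ∀ (w : Fin m → ℕ) (E : Fin m → g), PV (uu w E)
  yy : ∀ (w : Fin m → ℕ) (E : Fin m → g), PV (yy w E)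

end Chart

end Pool.Agent.Helper67.KPG
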